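import Pool.Agent.VPT.PPW

/-!
# MP_deb8da_ag: the inductive step from `v` to `v + 1` variables, for fixed `v ≥ 3`
-/

set_option autoImplicit false

namespace Pool.Agent.VOP

open MvPolynomial Pool.Agent.VSY

/-- The step for fixed `v`: `K_p[R + 1] = 0` in `v + 1` variables, `R + 1 = 2 M + 3 + β`.
`h3`: it is true in `v` variables; `hH`: smaller `p`, all levels `≥ R + 1`; `hB`: letters of degree
`N = M + 1`, level `R - 1`, `s ≤ p - 3 - β`; `hB1`: levels `R + i`, `s ≤ p - 2 - β + i`,
`i ≤ β - 1`; `hC`: levels `≥ R + M`, `s ≤ p - 4`; `hq`: `K_{p'} = 0` for `p' ≤ q`, all levels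
`≥ R`; `hHG`: gluing of highest weight vectors with at most `v` rows. -/
theorem stepv (K : Type) [Field K] [LinearOrder K] [IsStrictOrderedRing K] (v M β p q : ℕ)
    (hv : 3 ≤ v) (hβ : 1 ≤ β) (h3 : Van K v (M + 2) p (2 * M + 3 + β))
    (hH : ∀ p', p' < p → ∀ r', 2 * M + 3 + β ≤ r' → Van K (v + 1) (M + 2) p' r')
    (hB : ∀ s, s + 3 + β ≤ p → Van K (v + 1) (M + 1) s (2 * M + 1 + β))
    (hB1 : ∀ s i, i < β → s + 2 + β ≤ p + i → Van K (v + 1) (M + 1) s (2 * M + 2 + β + i))
    (hC : ∀ s r', s + 4 ≤ p → 3 * M + 2 + β ≤ r' → Van K (v + 1) (M + 1) s r')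
    (hq : ∀ p', p' ≤ q → ∀ r', 2 * M + 2 + β ≤ r' → Van K (v + 1) (M + 2) p' r')
    (hpq : p ≤ q + M + 5)
    (hHG : ∀ t κ l D, v ≤ t → β ≤ l → D + κ + l + t ≤ 2 * p + 1 →
      HGr K (v + 1) (M + 1) κ l (M + 1 + β) D) : Van K (v + 1) (M + 2) p (2 * M + 3 + β) := by
  have hcz : CharZero K := IsStrictOrderedRing.toCharZero
  have hLIFT : ∀ s l, s + l + 3 ≤ p → LIFT K (v + 1) (M + 1) (M + 2) s l (2 * M + 1 + β) := by
    intro s l hsl
    rcases Nat.lt_or_ge (q + 1) l with hl | hl
    · rcases Nat.eq_zero_or_pos s with hs | hs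
      · subst hs
        refine t_VLF t_VMVL t_VRNB K (v + 1) (M + 1) (M + 2) 0 l (2 * M + 1 + β) (by omega)
          (by omega) (fun h => by omega) ?_
        intro _
        refine STEP.mvb_zero K (v + 1) (M + 1) (M + 2) (l - 1) (2 * M + 1 + β) ?_
        exact t_VPVM K (v + 1) (M + 2) (l - 1) _ (by omega)
          (hH (l - 1) (by omega) _ (by omega))
      · have hsM : s ≤ M := by omega
        refine liftm K (v + 1) (M + 1) (M + 2) s l (2 * M + 1 + β) s (by omega) (by omega)
          (by omega) hs (by omega) ?_ ?_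
        · intro p' e' hp' he'
          exact low K (v + 1) (M + 1) p' _ (by omega) (by omega)
        · intro p' q' hq'
          refine hH p' (by omega) _ ?_
          have : 0 ≤ q' * (M + 2 - 1) := Nat.zero_le _
          omega
    · refine t_VLF t_VMVL t_VRNB K (v + 1) (M + 1) (M + 2) s l (2 * M + 1 + β) (by omega)
        (by omega) ?_ ?_
      · intro hs
        exact t_VPVM K (v + 1) (M + 1) (s - 1) _ (by omega)
          (hC (s - 1) _ (by omega) (by omega))
      · intro hl1
        refine mvbi K (v + 1) (M + 1) s (l - 1) (2 * M + 1 + β) (by omega) (by omega) ?_ ?_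
        · intro i hi
          exact hC (s + i) _ (by omega) (by omega)
        · intro i hi
          exact hq (l - 1 - i) (by omega) _ (by omega)
  have hPP : ∀ j t, v ≤ t → t + j = p → PP K (v + 1) M β t j := by
    intro j
    induction j with
    | zero =>
      intro t ht hp'
      refine PPV_thm K (v + 1) M β t 0 (t_VPVM K (v + 1) (M + 2) 0 (M + β) (by omega) ?_)
      exact low K (v + 1) (M + 2) 0 _ (by omega) (by omega)
    | succ j ihj =>
      intro t ht hp'
      rcases Nat.lt_or_ge q (j + 1) with hj | hj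
      · rcases Nat.lt_or_ge (j + 1) β with hjβ | hjβ
        · refine PPV_thm K (v + 1) M β t (j + 1)
            (t_VPVM K (v + 1) (M + 2) (j + 1) (M + β) (by omega) ?_)
          exact low K (v + 1) (M + 2) (j + 1) _ (by omega) (by omega)
        · refine ppw K (v + 1) M β t (j + 1) (β - 1) (by omega) (by omega) (by omega) ?_ ?_ ?_
          · refine mvbi K (v + 1) (M + 1) (j + 1 - (β - 1)) (β - 1) (M + β) (by omega)
              (by omega) ?_ ?_
            · intro i hi
              have h := hB1 (j + 1 - (β - 1) + i) i (by omega) (by omega)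
              rwa [show 2 * M + 2 + β + i = M + β + 1 + i + (M + 1) by omega] at h
            · intro i hi
              exact low K (v + 1) (M + 1 + 1) (β - 1 - i) _ (by omega) (by omega)
          · intro l hl1 hl2
            refine ⟨hB (j + 1 - l) (by omega), ?_, ?_, ?_⟩
            · intro s hs
              exact hLIFT s l (by omega)
            · exact hLIFT (j + 1 - l) (l - 1) (by omega)
            · intro k g hk hkt hgl
              exact hHG t (k + g + l) l _ ht (by omega) (by omega)
          · rw [Nat.add_sub_cancel]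
            exact ihj (t + 1) (by omega) (by omega)
      · refine PPV_thm K (v + 1) M β t (j + 1)
          (t_VPVM K (v + 1) (M + 2) (j + 1) (M + β) (by omega) ?_)
        have h := hq (j + 1) hj (2 * M + 2 + β) le_rfl
        rwa [show 2 * M + 2 + β = M + β + (M + 2) by omega] at h
  refine TRS_thm K v M β p (by omega) h3 ?_ ?_
  · intro hvp
    exact hPP (p - v) v le_rfl (by omega)
  · intro hvp
    exact hH _ (by omega) _ le_rfl

end Pool.Agent.VOP
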