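import Pool.Agent.VOP.SBT
import Pool.Agent.VOP.StmtsH
import Pool.Agent.VSY.WB

/-!
# Highest weight vectors with all rows are in the ideal of every linear form (MP_deb8da_ag)
-/

set_option autoImplicit false

namespace Pool.Agent.VOP

open MvPolynomial Pool.Agent.VSY

namespace VROW

variable {K : Type} [Field K] {A : Type} [Fintype A] [DecidableEq A] {v : ℕ}

omit [DecidableEq A] in
theorem Eij_mul (i j : Fin v) (f g : PX K A v) :
    Eij i j (f * g) = Eij i j f * g + f * Eij i j g := by
  rw [WB.Eij_apply, WB.Eij_apply, WB.Eij_apply, Finset.sum_mul, Finset.mul_sum,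
    ← Finset.sum_add_distrib]
  refine Finset.sum_congr rfl fun x _ => ?_
  rw [Derivation.leibniz, smul_eq_mul, smul_eq_mul]
  ring

omit [DecidableEq A] in
theorem Eij_C (i j : Fin v) (c : K) : Eij i j (C c : PX K A v) = 0 := by
  rw [WB.Eij_apply]
  refine Finset.sum_eq_zero fun x _ => ?_
  rw [pderiv_C, mul_zero]

/-- The one parameter family of substitutions in the coordinate `k`. -/
noncomputable def Phi (k : Fin v) (a : Fin v → K) : PX K A v →ₐ[K] Polynomial (PX K A v) :=
  aeval fun z : A × Fin v => if z.2 = k then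
    Polynomial.C (X z) + Polynomial.X *
      Polynomial.C (∑ i ∈ Finset.univ.filter (fun i => i < k), C (a i) * X (z.1, i))
    else Polynomial.C (X z)

omit [Fintype A] [DecidableEq A] in
theorem Phi_C (k : Fin v) (a : Fin v → K) (c : K) :
    Phi k a (C c : PX K A v) = Polynomial.C (C c) := by
  rw [Phi, aeval_C]
  rfl

omit [Fintype A] [DecidableEq A] in
theorem Phi_X_ne (k : Fin v) (a : Fin v → K) (x : A) (l : Fin v) (h : l ≠ k) :
    Phi k a (X (x, l) : PX K A v) = Polynomial.C (X (x, l)) := by
  rw [Phi, aeval_X]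
  exact if_neg h

omit [Fintype A] [DecidableEq A] in
theorem Phi_X_eq (k : Fin v) (a : Fin v → K) (x : A) :
    Phi k a (X (x, k) : PX K A v) = Polynomial.C (X (x, k)) + Polynomial.X *
      Polynomial.C (∑ i ∈ Finset.univ.filter (fun i => i < k), C (a i) * X (x, i)) := by
  rw [Phi, aeval_X]
  exact if_pos rfl

theorem deriv_Phi (k : Fin v) (a : Fin v → K) (q : PX K A v) :
    Polynomial.derivative (Phi k a q) =
      Phi k a (∑ i ∈ Finset.univ.filter (fun i => i < k), C (a i) * Eij i k q) := by
  induction q using MvPolynomial.induction_on with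
  | C c =>
    rw [Phi_C, Polynomial.derivative_C]
    have : ∑ i ∈ Finset.univ.filter (fun i => i < k), C (a i) * Eij i k (C c : PX K A v) = 0 :=
      Finset.sum_eq_zero fun i _ => by rw [Eij_C, mul_zero]
    rw [this, map_zero]
  | add p q hp hq =>
    rw [map_add, map_add, hp, hq, ← map_add, ← Finset.sum_add_distrib]
    congr 1
    refine Finset.sum_congr rfl fun i _ => ?_
    rw [map_add, mul_add]
  | mul_X p n hp =>
    have h : Polynomial.derivative (Phi k a (X n : PX K A v)) =
        Phi k a (∑ i ∈ Finset.univ.filter (fun i => i < k), C (a i) * Eij i k (X n)) := by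
      obtain ⟨x, l⟩ := n
      by_cases hl : l = k
      · subst hl
        rw [Phi_X_eq]
        have h1 : ∀ i ∈ Finset.univ.filter (fun i => i < l),
            Phi l a (C (a i) * Eij i l (X (x, l) : PX K A v)) =
              Polynomial.C (C (a i) * X (x, i)) := by
          intro i hi
          rw [WB.Eij_X, if_pos rfl, map_mul, Phi_C, Phi_X_ne, ← Polynomial.C_mul]
          exact (Finset.mem_filter.1 hi).2.ne
        have h2 : Phi l a (∑ i ∈ Finset.univ.filter (fun i => i < l),
            C (a i) * Eij i l (X (x, l) : PX K A v)) = Polynomial.C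
              (∑ i ∈ Finset.univ.filter (fun i => i < l), C (a i) * X (x, i)) := by
          rw [map_sum, Finset.sum_congr rfl h1, ← map_sum]
        rw [h2]
        generalize (∑ i ∈ Finset.univ.filter (fun i => i < l), C (a i) * X (x, i) :
          PX K A v) = S
        rw [Polynomial.derivative_add, Polynomial.derivative_C, Polynomial.derivative_mul,
          Polynomial.derivative_X, Polynomial.derivative_C]
        simp
      · rw [Phi_X_ne k a x l hl, Polynomial.derivative_C]
        have : ∑ i ∈ Finset.univ.filter (fun i => i < k),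
            C (a i) * Eij i k (X (x, l) : PX K A v) = 0 :=
          Finset.sum_eq_zero fun i _ => by
            rw [WB.Eij_X, if_neg (fun e => hl e.symm), mul_zero]
        rw [this, map_zero]
    rw [map_mul, Polynomial.derivative_mul, hp, h, ← map_mul, ← map_mul, ← map_add]
    congr 1
    rw [Finset.sum_mul, Finset.mul_sum, ← Finset.sum_add_distrib]
    refine Finset.sum_congr rfl fun i _ => ?_
    rw [Eij_mul]
    ring

/-- The substitution. -/
def gk (k : Fin v) (a : Fin v → K) : Fin v → Fin v → K :=
  fun i => if i = k then (fun j => if j < k then a j else if j = k then 1 else 0)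
    else Pi.single i 1

omit [Fintype A] [DecidableEq A] in
theorem lin_gk (k : Fin v) (a : Fin v → K) (p : A) :
    (lin (gk k a k) p : PX K A v) = X (p, k) +
      ∑ i ∈ Finset.univ.filter (fun i => i < k), C (a i) * X (p, i) := by
  rw [lin, gk, if_pos rfl, ← Finset.add_sum_erase Finset.univ _ (Finset.mem_univ k)]
  rw [if_neg (lt_irrefl k), if_pos rfl, C_1, one_mul, Finset.sum_filter]
  congr 1
  rw [← Finset.add_sum_erase Finset.univ (fun i => if i < k then C (a i) * X (p, i) else 0)
    (Finset.mem_univ k), if_neg (lt_irrefl k), zero_add]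
  refine Finset.sum_congr rfl fun i hi => ?_
  have hik : i ≠ k := Finset.ne_of_mem_erase hi
  by_cases h : i < k
  · rw [if_pos h, if_pos h]
  · rw [if_neg h, if_neg h, if_neg hik, C_0, zero_mul]

theorem sb_gk [CharZero K] (k : Fin v) (a : Fin v → K) (f : PX K A v) (hf : Hw f) :
    sb (gk k a) f = f := by
  have h1 : Polynomial.derivative (Phi k a f) = 0 := by
    rw [deriv_Phi]
    have : ∑ i ∈ Finset.univ.filter (fun i => i < k), C (a i) * Eij i k f = 0 :=
      Finset.sum_eq_zero fun i hi => by
        rw [hf i k (Finset.mem_filter.1 hi).2, mul_zero]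
    rw [this, map_zero]
  have h2 : (Phi k a f).natDegree = 0 := Polynomial.derivative_eq_zero.1 h1
  have h3 := Polynomial.eq_C_of_natDegree_eq_zero h2
  have h4 : ∀ t : PX K A v, ((Polynomial.aeval t : Polynomial (PX K A v) →ₐ[PX K A v]
      PX K A v).restrictScalars K) (Phi k a f) = (Phi k a f).coeff 0 := by
    intro t
    conv_lhs => rw [h3]
    simp
  have h5 : ((Polynomial.aeval (0 : PX K A v) : Polynomial (PX K A v) →ₐ[PX K A v]
      PX K A v).restrictScalars K).comp (Phi k a) = AlgHom.id K _ := by
    apply MvPolynomial.algHom_ext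
    rintro ⟨p, i⟩
    rw [AlgHom.comp_apply]
    by_cases hi : i = k
    · subst hi
      rw [Phi_X_eq]
      simp
    · rw [Phi_X_ne k a p i hi]
      simp
  have h6 : ((Polynomial.aeval (1 : PX K A v) : Polynomial (PX K A v) →ₐ[PX K A v]
      PX K A v).restrictScalars K).comp (Phi k a) = sb (gk k a) := by
    apply MvPolynomial.algHom_ext
    rintro ⟨p, i⟩
    rw [AlgHom.comp_apply, SBT.sb_X]
    by_cases hi : i = k
    · subst hi
      rw [lin_gk, Phi_X_eq]
      generalize (∑ j ∈ Finset.univ.filter (fun j => j < i), C (a j) * X (p, j) :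
          PX K A v) = S
      simp
    · rw [Phi_X_ne k a p i hi, gk, if_neg hi, lin, Finset.sum_eq_single i]
      · simp
      · intro j _ hj
        rw [Pi.single_eq_of_ne hj, C_0, zero_mul]
      · simp
  have h7 := AlgHom.congr_fun h5 f
  have h8 := AlgHom.congr_fun h6 f
  rw [AlgHom.comp_apply, h4] at h7 h8
  rw [← h8, h7, AlgHom.id_apply]

omit [DecidableEq A] in
/-- A polynomial of positive weight in the coordinate `k`. -/
theorem mem_span_X {ν : Fin v → ℕ} {f : PX K A v} (hf : HasW ν f) (k : Fin v) (hk : 1 ≤ ν k) :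
    f ∈ Ideal.span (Set.range fun p : A => (X (p, k) : PX K A v)) := by
  rw [f.as_sum]
  refine Ideal.sum_mem _ fun m hm => ?_
  have h1 := hf m hm k
  have h2 : ∃ p, m (p, k) ≠ 0 := by
    by_contra h
    push Not at h
    rw [Finset.sum_eq_zero fun p _ => h p] at h1
    omega
  obtain ⟨p, hp⟩ := h2
  have h3 : (monomial m (coeff m f) : PX K A v) =
      monomial (m - Finsupp.single (p, k) 1) (coeff m f) * X (p, k) := by
    rw [X, monomial_mul, mul_one]
    congr 1
    rw [tsub_add_cancel_of_le]
    rw [Finsupp.single_le_iff]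
    omega
  rw [h3]
  exact Ideal.mul_mem_left _ _ (Ideal.subset_span ⟨p, rfl⟩)

end VROW

/-- A highest weight vector with all rows is in the ideal of the `x(p)`, for all `x ≠ 0`. -/
theorem vrow {K : Type} [Field K] [CharZero K] {A : Type} [Fintype A] [DecidableEq A] {v : ℕ}
    {ν : Fin v → ℕ} {f : PX K A v} (hW : HasW ν f) (hE : ∀ i j : Fin v, i < j → Eij i j f = 0)
    (hν : ∀ k, 1 ≤ ν k) {x : Fin v → K} (hx : x ≠ 0) :
    f ∈ Ideal.span (Set.range fun p : A => (lin x p : PX K A v)) := by
  classical
  -- the last index with `x k ≠ 0`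
  have hne : (Finset.univ.filter fun i => x i ≠ 0).Nonempty := by
    obtain ⟨i, hi⟩ := Function.ne_iff.1 hx
    exact ⟨i, Finset.mem_filter.2 ⟨Finset.mem_univ _, hi⟩⟩
  obtain ⟨k, hk, hmax⟩ : ∃ k, x k ≠ 0 ∧ ∀ j, k < j → x j = 0 := by
    refine ⟨(Finset.univ.filter fun i => x i ≠ 0).max' hne, ?_, ?_⟩
    · exact (Finset.mem_filter.1 (Finset.max'_mem _ hne)).2
    · intro j hj
      by_contra h
      exact absurd (Finset.le_max' _ j (Finset.mem_filter.2 ⟨Finset.mem_univ _, h⟩)) (not_le.2 hj)
  have h1 := VROW.sb_gk k (fun i => x i / x k) f hE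
  have h2 := VROW.mem_span_X hW k (hν k)
  rw [← h1]
  have h3 : (sb (VROW.gk k fun i => x i / x k) f : PX K A v) ∈
      Ideal.map (sb (VROW.gk k fun i => x i / x k) : PX K A v →ₐ[K] PX K A v)
        (Ideal.span (Set.range fun p : A => (X (p, k) : PX K A v))) :=
    Ideal.mem_map_of_mem _ h2
  rw [Ideal.map_span] at h3
  refine (Ideal.span_le.2 ?_) h3
  rintro _ ⟨_, ⟨p, rfl⟩, rfl⟩
  have h4 : (sb (VROW.gk k fun i => x i / x k) (X (p, k)) : PX K A v) =
      C (x k)⁻¹ * lin x p := by
    rw [SBT.sb_X, lin, lin, Finset.mul_sum]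
    refine Finset.sum_congr rfl fun j _ => ?_
    rw [← mul_assoc, ← C_mul]
    congr 2
    rw [VROW.gk, if_pos rfl]
    show (if j < k then x j / x k else if j = k then 1 else 0) = (x k)⁻¹ * x j
    rcases lt_trichotomy j k with h | h | h
    · rw [if_pos h, div_eq_mul_inv, mul_comm]
    · subst h
      rw [if_neg (lt_irrefl j), if_pos rfl, inv_mul_cancel₀ hk]
    · rw [if_neg (not_lt.2 h.le), if_neg h.ne', hmax j h, mul_zero]
  show (sb (VROW.gk k fun i => x i / x k) (X (p, k)) : PX K A v) ∈ _
  rw [h4]
  exact Ideal.mul_mem_left _ _ (Ideal.subset_span ⟨p, rfl⟩)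

end Pool.Agent.VOP
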