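import Pool.Agent.VOP.N4A
import Pool.Agent.VOP.HMAIN
import Pool.Agent.VPT.VROW

/-!
# Highest weight gluing for one weight (MP_deb8da_ag)
-/

set_option autoImplicit false

namespace Pool.Agent.VOP

open MvPolynomial Pool.Agent.VSY

/-- Highest weight gluing for the weight `ν`: `κ` letters of degree `≥ N`, of which `l` have
degree `≥ N + 1`. -/
def HGw (K : Type) [Field K] (v N κ l e : ℕ) (ν : Fin v → ℕ) : Prop :=
  ∀ (A : Type) [Fintype A] [DecidableEq A] (δ : A → ℕ) (Λ C : Finset A) (w : A)
    (x : A → PX K A v), w ∉ Λ → Λ.card = κ → C ⊆ Λ → C.card = l → (∀ u ∈ Λ, N ≤ δ u) →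
    (∀ u ∈ C, N + 1 ≤ δ u) → δ w = e → (∀ p, p ∉ Λ → p ≠ w → δ p = 0) →
    (∀ u ∈ Λ, Dg (Function.update (Function.update δ u 0) w (e + δ u)) (x u)) →
    (∀ u ∈ Λ, ∀ u' ∈ Λ, u ≠ u' → ren (mv u' w) (x u) = ren (mv u w) (x u')) →
    (∀ u ∈ Λ, HasW ν (x u)) → (∀ u ∈ Λ, ∀ i j : Fin v, i < j → Eij i j (x u) = 0) →
    ∃ y : PX K A v, Dg δ y ∧ ∀ u ∈ Λ, ren (mv u w) y = x u

/-- Highest weight gluing for all weights `ν` with `ν k = 0` for some `k` and `ν j ≤ D` for all
`j` (at most `v - 1` rows). -/
def HGr (K : Type) [Field K] (v N κ l e D : ℕ) : Prop :=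
  ∀ ν : Fin v → ℕ, (∃ k, ν k = 0) → (∀ j, ν j ≤ D) → HGw K v N κ l e ν

theorem HGr.of_HG {K : Type} [Field K] {v N κ l e D : ℕ} (h : HG K v N κ e D) :
    HGr K v N κ l e D := by
  intro ν _ hν A _ _ δ Λ C w x h1 h2 _ _ h3 _ h4 h5 h6 h7 h8 h9
  obtain ⟨y, hy1, -, -, hy2⟩ := h A δ Λ w ν x h1 h2 h3 h4 h5 hν h6 h7 h8 h9
  exact ⟨y, hy1, hy2⟩

open N4AH in
/-- N4A for one weight. -/
theorem n4aw (K : Type) [Field K] [CharZero K] (v M β : ℕ) (A : Type) [Fintype A]
    [DecidableEq A] (T S C : Finset A) (w a : A) (ν : Fin v → ℕ) (m : PX K A v)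
    (hcf : Cf T S C w) (haT : a ∉ T) (haS : a ∉ S) (haC : a ∉ C) (haw : a ≠ w)
    (hHG : HGw K v (M + 1) (T.card + 1 + S.card + C.card) C.card (M + 1 + β) ν)
    (hm : Zc M T S C w (2 * M + 2 + β) m) (hW : HasW ν m)
    (hE : ∀ i j : Fin v, i < j → Eij i j m = 0) :
    ∃ y : PX K A v, Dg (dgc M (insert a T) S C w (M + 1 + β)) y ∧
      (∀ a' ∈ insert a T, ren (mv a' w) y = ren (Equiv.swap a a') m) ∧
      ∀ b ∈ S ∪ C, ren (mv b w) y = 0 := by
  obtain ⟨hTS, hTC, hSC, hwT, hwS, hwC⟩ := hcf
  have hdm : Dg (dgc M T S C w (2 * M + 2 + β)) m := hm.cg.dg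
  have hsy := hm.cg.sy
  have hcyS := hm.cyS
  have hcyC := hm.cyC
  have hda : dgc M T S C w (2 * M + 2 + β) a = 0 := by
    rw [dgc, if_neg, if_neg haC, if_neg haw]
    rw [Finset.mem_union]
    rintro (h | h)
    · exact haT h
    · exact haS h
  have hnotT : ∀ u, u ∈ S ∪ C → u ∉ insert a T := by
    intro u hu h
    rw [Finset.mem_insert] at h
    rw [Finset.mem_union] at hu
    rcases h with rfl | h
    · rcases hu with hu | hu
      · exact haS hu
      · exact haC hu
    · rcases hu with hu | hu
      · exact (Finset.disjoint_left.1 hTS) h hu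
      · exact (Finset.disjoint_left.1 hTC) h hu
  have hwa : w ≠ a := fun h => haw h.symm
  -- killing
  have hkill : ∀ u ∈ insert a T, ∀ b ∈ S ∪ C,
      ren (mv b w) (ren (Equiv.swap a u) m) = 0 := by
    intro u hu b hb
    have hbT := hnotT b hb
    have hbu : b ≠ u := fun h => hbT (h ▸ hu)
    have hba : b ≠ a := fun h => hbT (h ▸ Finset.mem_insert_self _ _)
    have hwu : w ≠ u := by
      rintro rfl
      rcases Finset.mem_insert.1 hu with h | h
      · exact hwa h
      · exact hwT h
    have h0 : ren (mv b w) m = 0 := by
      rcases Finset.mem_union.1 hb with h | h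
      · exact hcyS b h
      · exact hcyC b h
    have h1 : ren (mv b w) (ren (Equiv.swap a u) m) =
        ren (Equiv.swap a u) (ren (mv b w) m) := by
      rw [ren_ren, ren_ren]
      refine ren_congr (fun x => ?_) m
      rw [Function.comp_apply, Function.comp_apply]
      by_cases hx : x = b
      · subst hx
        rw [Equiv.swap_apply_of_ne_of_ne hba hbu, mv_self, Equiv.swap_apply_of_ne_of_ne hwa hwu]
      · rw [mv_ne b w hx, mv_ne]
        intro h
        have h2 : x = Equiv.swap a u b := by
          rw [← h, Equiv.swap_apply_self]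
        rw [Equiv.swap_apply_of_ne_of_ne hba hbu] at h2
        exact hx h2
    rw [h1, h0, map_zero]
  -- the case `u = a`
  have hca : ∀ u' ∈ T, ren (mv u' w) (ren (Equiv.swap a a) m) =
      ren (mv a w) (ren (Equiv.swap a u') m) := by
    intro u' hu'
    have hu'a : u' ≠ a := fun h => haT (h ▸ hu')
    have hu'w : u' ≠ w := fun h => hwT (h ▸ hu')
    rw [ren_ren, ren_ren]
    refine DG.ren_eq _ _ _ m (fun x hx => ?_) hdm
    have hxa : x ≠ a := by
      rintro rfl
      exact hx hda
    rw [Function.comp_apply, Function.comp_apply, Equiv.swap_self, Equiv.refl_apply]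
    by_cases hx' : x = u'
    · subst hx'
      rw [Equiv.swap_apply_right, mv_self, mv_self]
    · rw [Equiv.swap_apply_of_ne_of_ne hxa hx', mv_ne u' w hx', mv_ne a w hxa]
  have hcomp : ∀ u ∈ insert a T, ∀ u' ∈ insert a T, u ≠ u' →
      ren (mv u' w) (ren (Equiv.swap a u) m) = ren (mv u w) (ren (Equiv.swap a u') m) := by
    intro u hu u' hu' hne
    rcases Finset.mem_insert.1 hu with rfl | huT
    · rcases Finset.mem_insert.1 hu' with rfl | hu'T
      · exact absurd rfl hne
      · exact hca u' hu'T
    · rcases Finset.mem_insert.1 hu' with rfl | hu'T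
      · exact (hca u huT).symm
      · have hua : u ≠ a := fun h => haT (h ▸ huT)
        have hu'a : u' ≠ a := fun h => haT (h ▸ hu'T)
        have h1 : ren (Equiv.swap u u') m = m := hsy u huT u' hu'T
        have h2 : ren (mv u w) (ren (Equiv.swap a u') m) =
            ren (mv u w) (ren (Equiv.swap a u') (ren (Equiv.swap u u') m)) := by
          rw [h1]
        rw [h2, ren_ren, ren_ren, ren_ren]
        refine DG.ren_eq _ _ _ m (fun x hx => ?_) hdm
        have hxa : x ≠ a := by
          rintro rfl
          exact hx hda
        simp only [Function.comp_apply]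
        by_cases hx1 : x = u
        · subst hx1
          rw [Equiv.swap_apply_right, Equiv.swap_apply_left, Equiv.swap_apply_right,
            mv_ne u' w hu'a.symm, mv_ne x w hua.symm]
        · by_cases hx2 : x = u'
          · subst hx2
            rw [Equiv.swap_apply_of_ne_of_ne hxa hx1, mv_self, Equiv.swap_apply_right,
              Equiv.swap_apply_of_ne_of_ne hua hne, mv_self]
          · rw [Equiv.swap_apply_of_ne_of_ne hxa hx1, Equiv.swap_apply_of_ne_of_ne hx1 hx2,
              Equiv.swap_apply_of_ne_of_ne hxa hx2, mv_ne u' w hx2, mv_ne u w hx1]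
  obtain ⟨y, hy1, hy4⟩ := hHG A (dgc M (insert a T) S C w (M + 1 + β))
    (insert a T ∪ S ∪ C) C w (fun u => if u ∈ insert a T then ren (Equiv.swap a u) m else 0)
    (by
      simp only [Finset.mem_union, Finset.mem_insert, not_or]
      exact ⟨⟨⟨hwa, hwT⟩, hwS⟩, hwC⟩)
    (by
      have h1 : Disjoint (insert a T) S := by
        rw [Finset.disjoint_left]
        intro x hx hxS
        exact hnotT x (Finset.mem_union_left _ hxS) hx
      have h2 : Disjoint (insert a T ∪ S) C := by
        rw [Finset.disjoint_left]
        intro x hx hxC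
        rcases Finset.mem_union.1 hx with h | h
        · exact hnotT x (Finset.mem_union_right _ hxC) h
        · exact Finset.disjoint_left.1 hSC h hxC
      rw [Finset.card_union_of_disjoint h2, Finset.card_union_of_disjoint h1,
        Finset.card_insert_of_notMem haT])
    Finset.subset_union_right rfl
    (by
      intro u hu
      rw [dgc]
      split_ifs with h1 h2 h3
      · exact le_rfl
      · exact Nat.le_succ _
      · exact Nat.le_add_right _ _
      · exfalso
        rcases Finset.mem_union.1 hu with h | h
        · exact h1 h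
        · exact h2 h)
    (by
      intro u hu
      have h1 : u ∉ insert a T ∪ S := by
        intro h
        rcases Finset.mem_union.1 h with h | h
        · exact hnotT u (Finset.mem_union_right _ hu) h
        · exact Finset.disjoint_left.1 hSC h hu
      rw [dgc, if_neg h1, if_pos hu])
    (by
      rw [dgc, if_neg, if_neg hwC, if_pos rfl]
      simp only [Finset.mem_union, Finset.mem_insert, not_or]
      exact ⟨⟨hwa, hwT⟩, hwS⟩)
    (by
      intro p hp hpw
      rw [Finset.mem_union, not_or] at hp
      rw [dgc, if_neg hp.1, if_neg hp.2, if_neg hpw])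
    (by
      intro u hu
      by_cases huT : u ∈ insert a T
      · rw [if_pos huT]
        have h1 := ren_sym _ (Equiv.swap a u) m hdm
        have h2 : (fun b => dgc M T S C w (2 * M + 2 + β) ((Equiv.swap a u).symm b)) =
            Function.update (Function.update (dgc M (insert a T) S C w (M + 1 + β)) u 0) w
              (M + 1 + β + dgc M (insert a T) S C w (M + 1 + β) u) := by
          have hwu : w ≠ u := by
            rintro rfl
            rcases Finset.mem_insert.1 huT with h | h
            · exact hwa h
            · exact hwT h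
          have hdu : dgc M (insert a T) S C w (M + 1 + β) u = M + 1 := by
            rw [dgc, if_pos (Finset.mem_union_left _ huT)]
          funext x
          rw [Equiv.symm_swap, hdu]
          by_cases hxw : x = w
          · subst hxw
            rw [Function.update_self, Equiv.swap_apply_of_ne_of_ne hwa hwu, dgc, if_neg,
              if_neg hwC, if_pos rfl]
            · omega
            · rw [Finset.mem_union, not_or]
              exact ⟨hwT, hwS⟩
          · rw [Function.update_of_ne hxw]
            by_cases hxu : x = u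
            · subst hxu
              rw [Function.update_self, Equiv.swap_apply_right, hda]
            · rw [Function.update_of_ne hxu]
              by_cases hxa : x = a
              · subst hxa
                have huT' : u ∈ T := by
                  rcases Finset.mem_insert.1 huT with h | h
                  · exact absurd h.symm hxu
                  · exact h
                rw [Equiv.swap_apply_left, dgc, if_pos (Finset.mem_union_left _ huT'), dgc,
                  if_pos (Finset.mem_union_left _ (Finset.mem_insert_self _ _))]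
              · rw [Equiv.swap_apply_of_ne_of_ne hxa hxu, dgc, dgc]
                have h3 : x ∈ insert a T ∪ S ↔ x ∈ T ∪ S := by
                  simp only [Finset.mem_union, Finset.mem_insert, hxa, false_or]
                simp only [h3, if_neg hxw]
        rwa [h2] at h1
      · rw [if_neg huT]
        exact DG.zero _)
    (by
      intro u hu u' hu' hne
      by_cases huT : u ∈ insert a T
      · rw [if_pos huT]
        by_cases hu'T : u' ∈ insert a T
        · rw [if_pos hu'T]
          exact hcomp u huT u' hu'T hne
        · rw [if_neg hu'T, map_zero]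
          refine hkill u huT u' ?_
          rcases Finset.mem_union.1 hu' with h | h
          · rcases Finset.mem_union.1 h with h | h
            · exact absurd h hu'T
            · exact Finset.mem_union_left _ h
          · exact Finset.mem_union_right _ h
      · rw [if_neg huT, map_zero]
        by_cases hu'T : u' ∈ insert a T
        · rw [if_pos hu'T]
          refine (hkill u' hu'T u ?_).symm
          rcases Finset.mem_union.1 hu with h | h
          · rcases Finset.mem_union.1 h with h | h
            · exact absurd h huT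
            · exact Finset.mem_union_left _ h
          · exact Finset.mem_union_right _ h
        · rw [if_neg hu'T, map_zero])
    (by
      intro u hu
      by_cases huT : u ∈ insert a T
      · rw [if_pos huT]
        exact (WB_thm K A A v).2.2.2.1 ν _ m hW
      · rw [if_neg huT]
        intro m' hm'
        simp at hm')
    (by
      intro u hu i j hij
      by_cases huT : u ∈ insert a T
      · rw [if_pos huT, ← (NAT_thm K A A v (Equiv.swap a u)).1 i j m, hE i j hij, map_zero]
      · rw [if_neg huT, map_zero])
  refine ⟨y, hy1, ?_, ?_⟩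
  · intro a' ha'
    rw [hy4 a' (Finset.mem_union_left _ (Finset.mem_union_left _ ha')), if_pos ha']
  · intro b hb
    have hb' : b ∈ insert a T ∪ S ∪ C := by
      rcases Finset.mem_union.1 hb with h | h
      · exact Finset.mem_union_left _ (Finset.mem_union_right _ h)
      · exact Finset.mem_union_right _ h
    rw [hy4 b hb', if_neg (hnotT b hb)]

/-- N4 for one weight. -/
theorem n4w (K : Type) [Field K] [CharZero K] (v M β : ℕ) (A : Type) [Fintype A]
    [DecidableEq A] (T S C : Finset A) (w a : A) (ν : Fin v → ℕ) (m : PX K A v)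
    (hcf : Cf T S C w) (haT : a ∉ T) (haS : a ∉ S) (haC : a ∉ C) (haw : a ≠ w)
    (hHG : HGw K v (M + 1) (T.card + 1 + S.card + C.card) C.card (M + 1 + β) ν)
    (hm : Zc M T S C w (2 * M + 2 + β) m) (hW : HasW ν m)
    (hE : ∀ i j : Fin v, i < j → Eij i j m = 0) :
    ∃ η : PX K A v, Zc M (insert a T) S C w (M + 1 + β) η ∧ ren (mv a w) η = m := by
  obtain ⟨y, h1, h2, h3⟩ := n4aw K v M β A T S C w a ν m hcf haT haS haC haw hHG hm hW hE
  exact N4B_thm K v M β A T S C w a m y hcf haT haS haC haw hm h1 h2 h3

end Pool.Agent.VOP
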