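import Pool.Agent.VOP.FCA
import Pool.Agent.VPT.N4W

/-!
# FCLAIM with the gluing of highest weight vectors with at most `v - 1` rows (MP_deb8da_ag)
-/

set_option autoImplicit false

namespace Pool.Agent.VOP

open MvPolynomial Pool.Agent.VSY

open FCA in
/-- FCA with the gluing of highest weight vectors with at most `v - 1` rows. -/
theorem fcaw (h1 : Stmt_DG) (h2 : Stmt_SYM) (h4 : Stmt_N2) (h5 : Stmt_N3)
    (h7 : Stmt_EST) (h8 : Stmt_ORT) (K : Type) [Field K] [LinearOrder K]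
    [IsStrictOrderedRing K] (v M β t s l a b : ℕ) (hv : 1 ≤ v) (hat : a ≤ t) (hbs : b ≤ s)
    (hN0 : N0P K v M β t s l (a + b))
    (hL : ∀ s' ≤ s, LIFT K v (M + 1) (M + 2) s' l (2 * M + 1 + β)) (hα : ALP K v M β t s l)
    (h3' : THREE K v M β t s l)
    (hHG : HGr K v (M + 1) (t - a + 1 + (s - b) + l) l (M + 1 + β) (s + a + b)) :
    FC K v M β t s l a b := by
  intro A _ _ T S C T₁ S₁ w m hCf hSp hT hS hC hT₁ hS₁ ha hb hm
  have hcz : CharZero K := IsStrictOrderedRing.toCharZero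
  obtain ⟨hE1, hE2, hE3⟩ := h7 K v M β t s l (hL s le_rfl) hα A T S C T₁ S₁ w hCf hSp hT hS hC
    hT₁ hS₁
  have hSp' := hSp
  obtain ⟨c₀, hc1, hc2, hc3, hc4⟩ := hSp'
  have hz : FCm M β T S C T₁ S₁ w (0 : PX K A v) := by
    have := h4 K v M β t s l h3' A T S C T₁ S₁ w c₀ 0 hCf hT hS hC hT₁ hS₁ hc1 hc2 hc3 hc4
      (zc_zero h1 _ _ _ _ _ _)
    rwa [map_zero] at this
  let Z : Submodule K (PX K A v) :=
    { carrier := {f | Zc M (T \ T₁) (S \ S₁) C w (2 * M + 2 + β) f}
      add_mem' := fun hf hg => zc_add h1 h2 hf hg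
      zero_mem' := zc_zero h1 _ _ _ _ _ _
      smul_mem' := fun c _ hf => zc_smul h1 h2 c hf }
  let N : Submodule K (PX K A v) :=
    { carrier := {f | Zc M (T \ T₁) (S \ S₁) C w (2 * M + 2 + β) f ∧
        FCm M β T S C T₁ S₁ w f}
      add_mem' := fun hf hg => ⟨zc_add h1 h2 hf.1 hg.1, hE1 _ _ hf.1 hg.1 hf.2 hg.2⟩
      zero_mem' := ⟨zc_zero h1 _ _ _ _ _ _, hz⟩
      smul_mem' := fun c _ hf => ⟨zc_smul h1 h2 c hf.1, hE2 c _ hf.1 hf.2⟩ }
  have key : Z ≤ N := by
    refine h8 K A v (∑ x, dgc M (T \ T₁) (S \ S₁) C w (2 * M + 2 + β) x) Z N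
      (fun f hf => hf.1) (fun i j f hf => (hE3 i j f hf).1)
      (fun i j f hf => ⟨(hE3 i j f hf.1).1, (hE3 i j f hf.1).2 hf.2⟩) ?_ ?_
    · intro f hf μ hμ
      rw [Fintype.sum_prod_type]
      exact (Finset.sum_congr rfl fun x _ => hf.cg.dg μ hμ x).le
    · intro ν f hf hW hE
      refine ⟨hf, ?_⟩
      by_cases hk : ∃ k, s + a + b + 1 ≤ ν k
      · obtain ⟨k, hk⟩ := hk
        exact h5 K v M β t s l (a + b) hv hN0 hL hα A T S C T₁ S₁ w k f (ν k) hCf hSp hT hS hC
          hT₁ hS₁ (by rw [ha, hb]) hf (fun μ hμ => hW μ hμ k) (by omega)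
      · push Not at hk
        by_cases hz' : ∃ k, ν k = 0
        · have hcT : (T \ T₁).card = t - a := by
            rw [Finset.card_sdiff_of_subset hT₁, hT, ha]
          have hcS : (S \ S₁).card = s - b := by
            rw [Finset.card_sdiff_of_subset hS₁, hS, hb]
          obtain ⟨η, hη, hηf⟩ := n4w K v M β A (T \ T₁) (S \ S₁) C w c₀ ν f
            ⟨hCf.TS.mono Finset.sdiff_subset Finset.sdiff_subset,
              hCf.TC.mono_left Finset.sdiff_subset, hCf.SC.mono_left Finset.sdiff_subset,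
              fun h => hCf.wT (Finset.sdiff_subset h), fun h => hCf.wS (Finset.sdiff_subset h),
              hCf.wC⟩
            (fun h => hc1 (Finset.sdiff_subset h)) (fun h => hc2 (Finset.sdiff_subset h)) hc3 hc4
            (by rw [hcT, hcS, hC]; exact hHG ν hz' (fun j => by have := hk j; omega)) hf hW hE
          have := h4 K v M β t s l h3' A T S C T₁ S₁ w c₀ η hCf hT hS hC hT₁ hS₁ hc1 hc2 hc3 hc4
            hη
          rwa [hηf] at this
        · push Not at hz'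
          intro x b f' hx hbh hLR
          exact hN0 A T S C T₁ S₁ w x b f f' hCf hSp hT hS hC hT₁ hS₁ (by rw [ha, hb]) hx hbh
            hf (vrow hW hE (fun k => by have := hz' k; omega) hx) hLR
  exact (key hm).2

end Pool.Agent.VOP
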