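import Pool.Agent.VOP.HVM
import Pool.Agent.VPT.N4W

/-!
# Gluing of highest weight families in three coordinates (MP_deb8da_ag)
-/

set_option autoImplicit false

namespace Pool.Agent.VOP

open MvPolynomial Pool.Agent.VSY

/-- At most `e + 1` letters: every compatible family is glueable. -/
theorem free3 (K : Type) [Field K] [CharZero K] (A : Type) [Fintype A] [DecidableEq A]
    (δ : A → ℕ) (Λ : Finset A) (w : A) (x : A → PX K A 3) (hw : w ∉ Λ)
    (hc1 : Λ.card ≤ δ w + 1)
    (hdg : ∀ u ∈ Λ, Dg (Function.update (Function.update δ u 0) w (δ w + δ u)) (x u))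
    (hcomp : ∀ u ∈ Λ, ∀ u' ∈ Λ, u ≠ u' → ren (mv u' w) (x u) = ren (mv u w) (x u')) :
    GluA δ Λ w x := by
  induction Λ using Finset.induction_on with
  | empty =>
    refine ⟨0, DG.zero δ, fun u hu => ?_⟩
    exact absurd hu (Finset.notMem_empty u)
  | insert u₀ Λ' hu₀ ih =>
    have hcard : (insert u₀ Λ').card = Λ'.card + 1 := Finset.card_insert_of_notMem hu₀
    have hmem0 : u₀ ∈ insert u₀ Λ' := Finset.mem_insert_self _ _
    have hmem : ∀ u ∈ Λ', u ∈ insert u₀ Λ' := fun u hu => Finset.mem_insert_of_mem hu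
    have hw' : w ∉ Λ' := fun h => hw (hmem w h)
    have hne : ∀ u ∈ insert u₀ Λ', u ≠ w := fun u hu h => hw (h ▸ hu)
    have hu0w : u₀ ≠ w := hne u₀ hmem0
    have hneu : ∀ u ∈ Λ', u ≠ u₀ := fun u hu h => hu₀ (h ▸ hu)
    rw [hcard] at hc1
    obtain ⟨Y₀, hY0, hY0x⟩ := ih hw' (by omega) (fun u hu => hdg u (hmem u hu))
      (fun u hu u' hu' h => hcomp u (hmem u hu) u' (hmem u' hu') h)
    have hf : Dg (Function.update (Function.update δ u₀ 0) w (δ w + δ u₀))
        (x u₀ - ren (mv u₀ w) Y₀) :=
      DG.sub (hdg u₀ hmem0) (D1F.dg_mv δ hu0w hY0)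
    have hcy : Cy Λ' w (x u₀ - ren (mv u₀ w) Y₀) := by
      intro u hu
      have e1 := hcomp u₀ hmem0 u (hmem u hu) (hneu u hu).symm
      rw [map_sub, e1, D1F.mv_comm (hne u (hmem u hu)) hu0w, hY0x u hu, sub_self]
    have hps : ∀ J, J ⊆ Λ' → δ w + 1 ≤ J.card →
        ps K (insert w J) (x u₀ - ren (mv u₀ w) Y₀) = 0 := by
      intro J hJ hJc
      have := Finset.card_le_card hJ
      omega
    obtain ⟨Y', hY'd, hY'c, hY'r⟩ := star K A
      (Function.update (Function.update δ u₀ 0) w (δ w + δ u₀)) Λ' w (δ u₀) (δ w)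
      (x u₀ - ren (mv u₀ w) Y₀) hw' (by rw [Function.update_self, add_comm])
      (by omega) (by omega) hf hcy hps
    refine ⟨Y₀ + rn u₀ Y', DG.add hY0 ?_, ?_⟩
    · have h3 := D1F.dg_rn _ u₀ hY'd
      have h4 : (fun b => (if b = u₀ then
          ext (Function.update (Function.update δ u₀ 0) w (δ w + δ u₀)) (δ u₀) w (δ w) none else 0) +
          ext (Function.update (Function.update δ u₀ 0) w (δ w + δ u₀)) (δ u₀) w (δ w) (some b)) =
          δ := by
        funext b
        simp only [ext]
        by_cases hb : b = u₀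
        · subst hb
          rw [if_pos rfl, if_neg hu0w, Function.update_of_ne hu0w, Function.update_self, add_zero]
        · rw [if_neg hb, zero_add]
          by_cases hbw : b = w
          · rw [if_pos hbw, hbw]
          · rw [if_neg hbw, Function.update_of_ne hbw, Function.update_of_ne hb]
      rw [h4] at h3
      exact h3
    · intro u hu
      rw [map_add]
      rcases Finset.mem_insert.1 hu with h | h
      · subst h
        have e1 : ren (mv u w) (rn u Y') = rn w Y' := by
          show ren (mv u w) (ren (fun o : Option A => o.getD u) Y') =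
            ren (fun o : Option A => o.getD w) Y'
          rw [ren_ren]
          refine DG.ren_eq _ _ _ Y' ?_ hY'd
          intro o ho
          cases o with
          | none =>
            simp only [Function.comp_apply, Option.getD_none]
            exact D1F.mv_self u w
          | some a =>
            simp only [Function.comp_apply, Option.getD_some]
            have ha : a ≠ u := by
              intro ha
              subst ha
              apply ho
              simp only [ext]
              rw [if_neg hu0w, Function.update_of_ne hu0w, Function.update_self]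
            exact D1F.mv_ne ha
        rw [e1, hY'r]
        ring
      · have huw : u ≠ w := hne u hu
        have hu0 : u ≠ u₀ := hneu u h
        have e1 : ren (mv u w) (rn u₀ Y') = 0 := by
          show ren (mv u w) (ren (fun o : Option A => o.getD u₀) Y') = 0
          have e2 : ren (mv u w) (ren (fun o : Option A => o.getD u₀) Y') =
              ren (fun o : Option A => o.getD u₀) (ren (mv (some u) (some w)) Y') := by
            rw [ren_ren, ren_ren]
            refine ren_congr (fun o => ?_) Y'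
            cases o with
            | none =>
              have e3 : mv (some u) (some w) none = none :=
                D1F.mv_ne (by simp)
              simp only [Function.comp_apply, Option.getD_none, e3]
              exact D1F.mv_ne hu0.symm
            | some a =>
              simp only [Function.comp_apply, Option.getD_some]
              by_cases ha : a = u
              · subst ha
                rw [D1F.mv_self, D1F.mv_self, Option.getD_some]
              · rw [D1F.mv_ne ha, D1F.mv_ne (fun h => ha (Option.some.inj h)), Option.getD_some]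
          rw [e2, hY'c u h, map_zero]
        rw [e1, add_zero, hY0x u h]

/-- Gluing on the line `X (·, 2) = 0`. -/
theorem line3 (K : Type) [Field K] [CharZero K] (A : Type) [Fintype A] [DecidableEq A]
    (δ : A → ℕ) (Λ : Finset A) (w : A) (x : A → PX K A 3) (hw : w ∉ Λ)
    (hdg : ∀ u ∈ Λ, Dg (Function.update (Function.update δ u 0) w (δ w + δ u)) (x u))
    (hcomp : ∀ u ∈ Λ, ∀ u' ∈ Λ, u ≠ u' → ren (mv u' w) (x u) = ren (mv u w) (x u'))
    (hS : ∀ S ⊆ Λ, (Λ \ S).card ≤ δ w + 1 ∨
      ∀ u ∈ Λ \ S, pr (2 : Fin 3) w (fun J => J ∩ Λ = S) (x u) = 0) :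
    ∃ Y : PX K A 3, Dg δ Y ∧ ∀ u ∈ Λ, (X (w, 2) : PX K A 3) ∣ ren (mv u w) Y - x u := by
  have hPR := PR_thm K A 3 (2 : Fin 3) w
  have hne : ∀ u ∈ Λ, u ≠ w := fun u hu h => hw (h ▸ hu)
  have key : ∀ S, S ⊆ Λ → ∃ y : PX K A 3, Dg δ y ∧
      (∀ u ∈ Λ \ S, ren (mv u w) y = pr (2 : Fin 3) w (fun J => J ∩ Λ = S) (x u)) ∧
      ∀ u ∈ S, (X (w, 2) : PX K A 3) ∣ ren (mv u w) y := by
    intro S hSΛ
    have hpred : ∀ u ∈ Λ \ S, (fun J : Finset A => J ∩ Λ = S ∧ u ∉ J) = fun J => J ∩ Λ = S := by
      intro u hu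
      funext J
      refine propext ⟨fun h => h.1, fun h => ⟨h, fun huJ => ?_⟩⟩
      rw [Finset.mem_sdiff] at hu
      exact hu.2 (h ▸ Finset.mem_inter.2 ⟨huJ, hu.1⟩)
    have hglue : ∃ y : PX K A 3, Dg δ y ∧
        ∀ u ∈ Λ \ S, ren (mv u w) y = pr (2 : Fin 3) w (fun J => J ∩ Λ = S) (x u) := by
      rcases hS S hSΛ with h | h
      · refine free3 K A δ (Λ \ S) w _ (fun h => hw (Finset.mem_sdiff.1 h).1) h ?_ ?_
        · intro u hu
          exact hPR.2.2.1 _ _ _ (hdg u (Finset.mem_sdiff.1 hu).1)
        · intro u hu u' hu' huu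
          have h1 := hPR.2.2.2.2.2.2.2.1 (fun J => J ∩ Λ = S) u' (x u)
            (hne u' (Finset.mem_sdiff.1 hu').1)
          have h2 := hPR.2.2.2.2.2.2.2.1 (fun J => J ∩ Λ = S) u (x u')
            (hne u (Finset.mem_sdiff.1 hu).1)
          rw [hpred u' hu'] at h1
          rw [hpred u hu] at h2
          rw [← h1, ← h2, hcomp u (Finset.mem_sdiff.1 hu).1 u' (Finset.mem_sdiff.1 hu').1 huu]
      · refine ⟨0, DG.zero δ, fun u hu => ?_⟩
        rw [map_zero, h u hu]
    obtain ⟨y, hy1, hy2⟩ := hglue
    refine ⟨pr (2 : Fin 3) w (fun J => J ∩ Λ = S) y, hPR.2.2.1 _ _ _ hy1, ?_, ?_⟩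
    · intro u hu
      have h1 := hPR.2.2.2.2.2.2.2.1 (fun J => J ∩ Λ = S) u y (hne u (Finset.mem_sdiff.1 hu).1)
      rw [hpred u hu] at h1
      rw [← h1, hy2 u hu]
      refine MvPolynomial.ext _ _ fun m => ?_
      by_cases hm : m (w, 2) = 0 ∧ js (2 : Fin 3) w m ∩ Λ = S
      · rw [LNA.pr_coeff_pos _ _ _ _ _ hm]
      · rw [LNA.pr_coeff_neg _ _ _ _ _ hm, LNA.pr_coeff_neg _ _ _ _ _ hm]
    · intro u hu
      have h1 : (X (u, 2) : PX K A 3) ∣ pr (2 : Fin 3) w (fun J => J ∩ Λ = S) y := by
        refine hPR.2.2.2.2.2.2.2.2.2 _ u y ?_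
        intro J hJ
        rw [← (show J ∩ Λ = S from hJ)] at hu
        exact (Finset.mem_inter.1 hu).1
      obtain ⟨q, hq⟩ := h1
      refine ⟨ren (mv u w) q, ?_⟩
      rw [hq, map_mul]
      congr 1
      rw [ren, rename_X]
      show X (mv u w u, 2) = _
      rw [D1F.mv_self]
  choose! y hy using key
  refine ⟨∑ S ∈ Λ.powerset, y S, DG.sum _ _ fun S hS => (hy S (Finset.mem_powerset.1 hS)).1, ?_⟩
  intro u hu
  have h1 : ren (mv u w) (∑ S ∈ Λ.powerset, y S) - x u =
      ∑ S ∈ Λ.powerset, (ren (mv u w) (y S) - pr (2 : Fin 3) w (fun J => J ∩ Λ = S) (x u)) -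
        (x u - pr (2 : Fin 3) w (fun _ => True) (x u)) := by
    rw [Finset.sum_sub_distrib, LNF.sum_pr, map_sum]
    ring
  rw [h1]
  refine dvd_sub (Finset.dvd_sum fun S hS => ?_) (hPR.2.2.2.1 _)
  rw [Finset.mem_powerset] at hS
  by_cases huS : u ∈ S
  · have h2 : pr (2 : Fin 3) w (fun J => J ∩ Λ = S) (x u) = 0 := by
      by_contra h
      obtain ⟨m, hm⟩ := support_nonempty.2 h
      obtain ⟨h3, -, h4⟩ := LNA.mem_pr hm
      rw [← h4, Finset.mem_inter] at huS
      have h5 := huS.1
      rw [js, Finset.mem_filter] at h5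
      have h6 := hdg u hu m h3 u
      rw [Function.update_of_ne (hne u hu), Function.update_self, Fin.sum_univ_three] at h6
      omega
    rw [h2, sub_zero]
    exact (hy S hS).2.2 u huS
  · rw [(hy S hS).2.1 u (Finset.mem_sdiff.2 ⟨hu, huS⟩), sub_self]
    exact dvd_zero _

/-- Gluing of highest weight families in three coordinates. -/
theorem hgw3 (K : Type) [Field K] [CharZero K] (N κ l e : ℕ) (ν : Fin 3 → ℕ)
    (h : κ ≤ e + 1 ∨ (κ ≤ 2 * e + 1 ∧ κ ≤ N + e + 1 ∧
      ν 0 + ν 1 < (e + 2) * N + e + (e + 2 + l - κ)) ∨ ν 0 + ν 1 + ν 2 < κ * N + l + e) :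
    HGw K 3 N κ l e ν := by
  intro A _ _ δ Λ C w x hw hcard hCΛ hC hδ hδC hδw hδ0 hdg hcomp hW hE
  subst hcard hδw hC
  -- the degree of a monomial of `x u` at the points of a set `R ∪ {w}`
  have hdeg : ∀ u ∈ Λ, ∀ m ∈ (x u).support, ∀ R ⊆ Λ, u ∈ R →
      R.card * N + (R ∩ C).card + δ w ≤ ∑ p ∈ insert w R, ∑ j, m (p, j) := by
    intro u hu m hm R hR huR
    have huw : u ≠ w := fun h => hw (h ▸ hu)
    have hwR : w ∉ R := fun h => hw (hR h)
    rw [Finset.sum_insert hwR, ← Finset.add_sum_erase R _ huR]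
    have h1 := hdg u hu m hm w
    have h2 := hdg u hu m hm u
    rw [Function.update_self] at h1
    rw [Function.update_of_ne huw, Function.update_self] at h2
    rw [h1, h2]
    have h3 : ∀ p ∈ R.erase u, ∑ j, m (p, j) = δ p := by
      intro p hp
      rw [Finset.mem_erase] at hp
      have h4 := hdg u hu m hm p
      have hpw : p ≠ w := fun h => hw (h ▸ hR hp.2)
      rwa [Function.update_of_ne hpw, Function.update_of_ne hp.1] at h4
    rw [Finset.sum_congr rfl h3, Nat.zero_add]
    have h4 : δ u + (R.erase u).sum δ = R.sum δ := Finset.add_sum_erase R δ huR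
    have h5 : R.card * N + (R ∩ C).card ≤ R.sum δ := by
      have h6 : ∀ p ∈ R, N + (if p ∈ C then 1 else 0) ≤ δ p := by
        intro p hp
        split_ifs with hpC
        · exact hδC p hpC
        · exact hδ p (hR hp)
      have h7 := Finset.sum_le_sum h6
      rw [Finset.sum_add_distrib, Finset.sum_const, smul_eq_mul, Finset.sum_ite_mem,
        Finset.sum_const, smul_eq_mul, mul_one] at h7
      exact h7
    omega
  rcases h with h | h | h
  · exact free3 K A δ Λ w x hw h hdg hcomp
  · obtain ⟨h1, h2, h3⟩ := h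
    obtain ⟨Y, hY1, hY2⟩ := line3 K A δ Λ w x hw hdg hcomp (by
      intro S hS
      rcases Nat.lt_or_ge (δ w + 1) (Λ \ S).card with h | h
      · refine Or.inr fun u hu => ?_
        by_contra hne
        obtain ⟨m, hm⟩ := support_nonempty.2 hne
        obtain ⟨hm1, hm2, hm3⟩ := LNA.mem_pr hm
        have h4 := hdeg u (Finset.mem_sdiff.1 hu).1 m hm1 (Λ \ S) Finset.sdiff_subset hu
        have h5 : ∑ p ∈ insert w (Λ \ S), ∑ j, m (p, j) ≤ ν 0 + ν 1 := by
          have h6 : ∀ p ∈ insert w (Λ \ S), ∑ j, m (p, j) = m (p, 0) + m (p, 1) := by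
            intro p hp
            rw [Fin.sum_univ_three]
            have : m (p, 2) = 0 := by
              rcases Finset.mem_insert.1 hp with rfl | hp
              · exact hm2
              · rw [Finset.mem_sdiff] at hp
                by_contra hc
                apply hp.2
                rw [← hm3, Finset.mem_inter]
                refine ⟨?_, hp.1⟩
                rw [js, Finset.mem_filter]
                exact ⟨Finset.mem_univ _, fun h => hw (h ▸ hp.1), by omega⟩
            omega
          rw [Finset.sum_congr rfl h6, Finset.sum_add_distrib]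
          have hWu := hW u (Finset.mem_sdiff.1 hu).1 m hm1
          rw [← hWu 0, ← hWu 1]
          exact add_le_add
            (Finset.sum_le_sum_of_subset (Finset.subset_univ _))
            (Finset.sum_le_sum_of_subset (Finset.subset_univ _))
        have h7 : (δ w + 2) * N ≤ (Λ \ S).card * N := Nat.mul_le_mul_right _ h
        have h8 : (Λ \ S).card + C.card ≤ Λ.card + ((Λ \ S) ∩ C).card := by
          rw [← Finset.card_union_add_card_inter]
          exact Nat.add_le_add_right
            (Finset.card_le_card (Finset.union_subset Finset.sdiff_subset hCΛ)) _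
        omega
      · exact Or.inl h)
    refine d1f K A δ Λ w x hw (Or.inr h1) ?_ hdg hcomp ?_
    · intro u hu
      have := hδ u hu
      omega
    · intro y hy
      refine ⟨sb (VROW.gk 2 fun i => y i / y 2) Y,
        (SBT_thm DG_thm K 3).2.1 A δ _ Y hY1, fun u hu => ?_⟩
      have h4 : ren (mv u w) (sb (VROW.gk 2 fun i => y i / y 2) Y) - x u =
          sb (VROW.gk 2 fun i => y i / y 2) (ren (mv u w) Y - x u) := by
        rw [map_sub, SBT.ren_sb, VROW.sb_gk 2 _ (x u) (hE u hu)]
      obtain ⟨q, hq⟩ := hY2 u hu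
      rw [h4, hq, map_mul, SBT.sb_X]
      refine Dvd.dvd.mul_right ?_ _
      refine ⟨MvPolynomial.C (y 2)⁻¹, ?_⟩
      rw [lin, lin, Finset.sum_mul]
      refine Finset.sum_congr rfl fun j _ => ?_
      have h5 : VROW.gk (2 : Fin 3) (fun i => y i / y 2) 2 j = y j * (y 2)⁻¹ := by
        rw [VROW.gk, if_pos rfl]
        show (if j < 2 then y j / y 2 else if j = 2 then 1 else 0) = y j * (y 2)⁻¹
        by_cases hj : j < 2
        · rw [if_pos hj, div_eq_mul_inv]
        · have hj2 : j = 2 := by
            have := j.isLt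
            rw [Fin.lt_def] at hj
            refine Fin.ext ?_
            have h2v : ((2 : Fin 3) : ℕ) = 2 := rfl
            omega
          subst hj2
          rw [if_neg hj, if_pos rfl, mul_inv_cancel₀ hy]
      rw [h5, C_mul]
      ring
  · have hx : ∀ u ∈ Λ, x u = 0 := by
      intro u hu
      by_contra hne
      obtain ⟨m, hm⟩ := support_nonempty.2 hne
      have h1 := hdeg u hu m hm Λ subset_rfl hu
      have h2 : ∑ p ∈ insert w Λ, ∑ j, m (p, j) ≤ ∑ p, ∑ j, m (p, j) :=
        Finset.sum_le_sum_of_subset (Finset.subset_univ _)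
      rw [Finset.inter_eq_right.2 hCΛ] at h1
      have h3 : ∑ p, ∑ j, m (p, j) = ν 0 + ν 1 + ν 2 := by
        rw [Finset.sum_comm, Fin.sum_univ_three, hW u hu m hm 0, hW u hu m hm 1,
          hW u hu m hm 2]
      omega
    refine ⟨0, DG.zero δ, fun u hu => ?_⟩
    rw [map_zero, hx u hu]

end Pool.Agent.VOP
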