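import Pool.Agent.VOP.CFO
import Pool.Agent.VOP.RFN
import Pool.Agent.VPT.GLU3

/-!
# Gluing of highest weight families with at most three rows (MP_deb8da_ag)
-/

set_option autoImplicit false

namespace Pool.Agent.VOP

open MvPolynomial Pool.Agent.VSY

namespace HGR4

variable {K : Type} [Field K] {A : Type} [Fintype A] [DecidableEq A] {v : ℕ}

/-- A highest weight vector which does not involve the coordinate `k` does not involve the
coordinates `j > k`. -/
theorem zero_of_lt [CharZero K] {ν : Fin v → ℕ} {f : PX K A v} (hW : HasW ν f)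
    (hE : ∀ i j : Fin v, i < j → Eij i j f = 0) {k j : Fin v} (hk : ν k = 0) (hkj : k < j) :
    ∀ m ∈ f.support, ∀ x, m (x, j) = 0 := by
  intro m hm p
  by_contra hp
  have h0 : ∀ x, m (x, k) = 0 := by
    intro x
    have h1 := hW m hm k
    rw [hk] at h1
    exact (Finset.sum_eq_zero_iff.1 h1) x (Finset.mem_univ _)
  have h1 : coeff (m - Finsupp.single (p, j) 1 + Finsupp.single (p, k) 1) (Eij k j f) =
      coeff m f * (m (p, j) : K) := by
    rw [CFOH.coeff_Eij]
    have hle : Finsupp.single (p, j) 1 ≤ m := by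
      rw [Finsupp.single_le_iff]
      omega
    rw [Finset.sum_eq_single p]
    · rw [if_pos, add_tsub_cancel_right, tsub_add_cancel_of_le hle]
      · congr 1
        rw [Finsupp.tsub_apply, Finsupp.single_eq_same, Nat.cast_sub (by omega)]
        simp
      · rw [Finsupp.mem_support_iff, Finsupp.add_apply, Finsupp.single_eq_same]
        omega
    · intro x _ hx
      rw [if_neg]
      have e1 : (Finsupp.single (p, k) 1 : A × Fin v →₀ ℕ) (x, k) = 0 :=
        Finsupp.single_eq_of_ne fun h => hx (Prod.mk.inj h).1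
      rw [Finsupp.notMem_support_iff, Finsupp.add_apply, Finsupp.tsub_apply, h0 x, e1,
        Nat.zero_sub, Nat.add_zero]
    · intro h
      exact absurd (Finset.mem_univ _) h
  rw [hE k j hkj, coeff_zero] at h1
  have h2 : coeff m f ≠ 0 := mem_support_iff.1 hm
  have h3 : (m (p, j) : K) ≠ 0 := Nat.cast_ne_zero.2 hp
  exact (mul_ne_zero h2 h3) h1.symm

omit [Fintype A] [DecidableEq A] in
theorem dg_down {m : ℕ} (h : v ≤ m) {δ : A → ℕ} {f : PX K A m} (hf : Dg δ f) :
    Dg δ (down (v := v) f) := by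
  intro μ hμ x
  rw [mem_support_iff, VAR.coeff_down h] at hμ
  rw [← VAR.sum_mapDomain h]
  exact hf _ (mem_support_iff.2 hμ) x

end HGR4

open HGR4 in
/-- Gluing with at most three rows in four coordinates. -/
theorem hgr4 (K : Type) [Field K] [CharZero K] (N κ l e D : ℕ)
    (h : κ ≤ e + 1 ∨ (κ ≤ 2 * e + 1 ∧ κ ≤ N + e + 1 ∧
      2 * D < (e + 2) * N + e + (e + 2 + l - κ)) ∨ 3 * D < κ * N + l + e) :
    HGr K 4 N κ l e D := by
  intro ν ⟨k, hk⟩ hD A _ _ δ Λ C w x hw hcard hCΛ hC hδ hδC hδw hδ0 hdg hcomp hW hE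
  have h34 : 3 ≤ 4 := by norm_num
  have hud : ∀ u ∈ Λ, up h34 (down (v := 3) (x u)) = x u := by
    intro u hu
    refine (VAR_thm K 3 4 h34).2.1 A (x u) ?_
    intro μ hμ p j hj
    rcases Nat.lt_or_ge k.val 3 with h3 | h3
    · exact zero_of_lt (hW u hu) (hE u hu) hk (by rw [Fin.lt_def]; omega) μ hμ p
    · have hkj : k = j := by
        have := k.isLt
        have := j.isLt
        exact Fin.ext (by omega)
      subst hkj
      have h1 := hW u hu μ hμ k
      rw [hk] at h1
      exact (Finset.sum_eq_zero_iff.1 h1) p (Finset.mem_univ _)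
  have hg := hgw3 K N κ l e (fun j => ν (Fin.castSucc j)) (by
    rcases h with h | ⟨h1, h2, h3⟩ | h
    · exact Or.inl h
    · refine Or.inr (Or.inl ⟨h1, h2, ?_⟩)
      have h4 := hD (Fin.castSucc 0)
      have h5 := hD (Fin.castSucc 1)
      show ν (Fin.castSucc 0) + ν (Fin.castSucc 1) < _
      omega
    · refine Or.inr (Or.inr ?_)
      have h4 := hD (Fin.castSucc 0)
      have h5 := hD (Fin.castSucc 1)
      have h6 := hD (Fin.castSucc 2)
      show ν (Fin.castSucc 0) + ν (Fin.castSucc 1) + ν (Fin.castSucc 2) < _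
      omega) A δ Λ C w (fun u => down (v := 3) (x u)) hw hcard hCΛ hC hδ hδC hδw hδ0
    (fun u hu => dg_down h34 (hdg u hu))
    (fun u hu u' hu' huu => by
      rw [VAR.ren_down, VAR.ren_down, hcomp u hu u' hu' huu])
    (fun u hu => by
      intro μ hμ j
      rw [mem_support_iff, VAR.coeff_down h34] at hμ
      have h1 := hW u hu _ (mem_support_iff.2 hμ) (Fin.castSucc j)
      refine Eq.trans (Finset.sum_congr rfl fun p _ => ?_) h1
      have h2 := Finsupp.mapDomain_apply (VAR.iota_inj (A := A) h34) μ (p, j)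
      exact h2.symm)
    (fun u hu i j hij => by
      have h1 := RFN.up_Eij i j (down (v := 3) (x u))
      have h2 : up (Nat.le_succ 3) (down (v := 3) (x u)) = x u := hud u hu
      rw [h2, hE u hu _ _ (Fin.castSucc_lt_castSucc_iff.2 hij)] at h1
      have h3 := (VAR_thm K 3 4 h34).1 A (Eij i j (down (v := 3) (x u)))
      rw [← h3]
      show down (up (Nat.le_succ 3) (Eij i j (down (v := 3) (x u)))) = 0
      rw [h1, map_zero])
  obtain ⟨y, hy1, hy2⟩ := hg
  refine ⟨up h34 y, RFN.dg_up h34 hy1, fun u hu => ?_⟩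
  rw [VAR.ren_up, hy2 u hu, hud u hu]

end Pool.Agent.VOP
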