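import Pool.Agent.VOP.FIN4
import Pool.Agent.VOP.MAIN3
import Pool.Agent.VPT.HGR4
import Pool.Agent.VPT.STEPV

/-!
# MP_deb8da_ag: the lower end of the weight `2` in four variables
-/

set_option autoImplicit false

namespace Pool.Agent.VOP

open Pool.Agent.VSY

namespace V4

section char

variable {K : Type} [Field K] [CharZero K]

/-- Four variables: from three variables and the level below. -/
theorem step1 {d p r : ℕ} (hd : 1 ≤ d) (h3 : Van K 3 d p (r + 1))
    (h4 : 4 ≤ p → Van K 4 d (p - 4) (r + 1)) (h : 3 ≤ p → Van K 4 d (p - 3) r) :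
    Van K 4 d p (r + 1) := by
  refine TR.step wt ops VAR_thm PAR_thm ex 3 d p (r + 1) hd h3 (fun hp => h4 (by omega)) ?_
  intro hp r' hr'
  obtain rfl : r' = r := by omega
  have e : p + 1 - (3 + 1) = p - 3 := by omega
  rw [e]
  exact h (by omega)

/-- Slope three. -/
theorem slope4 {d P r : ℕ} (hd : 1 ≤ d) (h3 : ∀ p ≤ P, Van K 3 d p (r + 1))
    (h : ∀ p, p + 3 ≤ P → Van K 4 d p r) : ∀ p ≤ P, Van K 4 d p (r + 1) := by
  intro p
  induction p using Nat.strong_induction_on with
  | _ p ih =>
    intro hp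
    exact step1 hd (h3 p hp) (fun h4 => ih (p - 4) (by omega) (by omega))
      (fun h3 => h (p - 3) (by omega))

/-- Three variables, all levels. -/
theorem three' {N β p r : ℕ} (hN : 1 ≤ N) (hβ : 1 ≤ β)
    (h : N ≤ β ∨ 2 * p + β * (β - 1) ≤ 2 * ((β + 2) * N)) (hr : 2 * N + β + 1 ≤ r) :
    Van K 3 (N + 1) p r := by
  obtain ⟨j, rfl⟩ := Nat.exists_eq_add_of_le hr
  have e : 2 * N + β + 1 + j = 2 * N + (β + j) + 1 := by ring
  rw [e]
  refine VB.three hN ?_
  rcases Nat.lt_or_ge (β + j) N with h1 | h1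
  · right
    rcases h with h | h
    · omega
    · obtain ⟨c, rfl⟩ : ∃ c, β = c + 1 := ⟨β - 1, by omega⟩
      have e1 : c + 1 + j - 1 = c + j := by omega
      rw [e1]
      rw [Nat.add_sub_cancel] at h
      obtain ⟨m, rfl⟩ := Nat.exists_eq_add_of_lt h1
      nlinarith [Nat.zero_le (j * j), Nat.zero_le (j * m)]
  · exact Or.inl h1

/-- The top: `β = N - 2`. -/
theorem lb4 {N p : ℕ} (hN : 1 ≤ N) (h : 2 * p + 6 ≤ N * N + 5 * N) :
    Van K 4 (N + 1) p (3 * N - 1) := by
  rcases Nat.lt_or_ge N 4 with h4 | h4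
  · have : N = 1 ∨ N = 2 ∨ N = 3 := by omega
    rcases this with rfl | rfl | rfl
    · exact low K 4 2 p _ (by omega) (by omega)
    · exact van_one K 4 3 p (by omega)
    · exact van_two K 4 4 p (by omega)
  · obtain ⟨M, rfl⟩ : ∃ M, N = M + 1 := ⟨N - 1, by omega⟩
    have e : 3 * (M + 1) - 1 = 3 * M + 2 := by omega
    rw [e]
    refine V3F.van3 hvt K (by omega) ?_
    have e1 : ∀ n : ℕ, (n + 1).choose 2 * 2 = (n + 1) * n := by
      intro n
      induction n with
      | zero => decide
      | succ n ih =>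
        rw [show n + 1 + 1 = (n + 1) + 1 by omega, Nat.choose_succ_succ' (n + 1) 1]
        rw [Nat.choose_one_right, add_mul, ih]
        ring
    have h2 := e1 (M + 3)
    have e4 : M + 4 = M + 3 + 1 := rfl
    rw [e4]
    nlinarith

/-- The top: `β ≥ N - 1`. -/
theorem top4 {N : ℕ} (hN : 1 ≤ N) (k : ℕ) : ∀ p, 2 * p + 2 ≤ N * N + 5 * N + 6 * k →
    Van K 4 (N + 1) p (3 * N + k) := by
  induction k with
  | zero =>
    intro p hp
    rw [Nat.add_zero]
    have e : 3 * N = 3 * N - 1 + 1 := by omega
    rw [e]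
    refine slope4 (P := p) (by omega) ?_ ?_ p le_rfl
    · intro p' hp'
      have h := VB.three (K := K) (N := N) (β := N - 1) (p := p') hN (Or.inr (by
        obtain ⟨M, rfl⟩ : ∃ M, N = M + 1 := ⟨N - 1, by omega⟩
        rcases Nat.eq_zero_or_pos M with rfl | hM
        · omega
        · obtain ⟨L, rfl⟩ : ∃ L, M = L + 1 := ⟨M - 1, by omega⟩
          have e1 : L + 1 + 1 - 1 = L + 1 := by omega
          rw [e1, Nat.add_sub_cancel]
          nlinarith))
      have e2 : 2 * N + (N - 1) + 1 = 3 * N - 1 + 1 := by omega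
      rwa [e2] at h
    · intro p' hp'
      exact lb4 hN (by omega)
  | succ k ih =>
    intro p hp
    have e : 3 * N + (k + 1) = 3 * N + k + 1 := by ring
    rw [e]
    refine slope4 (P := p) (by omega) ?_ ?_ p le_rfl
    · intro p' hp'
      have h := VB.three (K := K) (N := N) (β := N + k) (p := p') hN (Or.inl (by omega))
      have e2 : 2 * N + (N + k) + 1 = 3 * N + k + 1 := by ring
      rwa [e2] at h
    · intro p' hp'
      exact ih p' (by omega)

end char

/-- Vanishing in four variables for `p ≤ P`, letters of degree `N + 1`, levels `≥ 2 N + β + 1`. -/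
def B4 (K : Type) [Field K] (N β P : ℕ) : Prop :=
  ∀ p ≤ P, ∀ r, 2 * N + β + 1 ≤ r → Van K 4 (N + 1) p r

section char

variable {K : Type} [Field K] [CharZero K]

/-- All higher levels. -/
theorem mono4 {N β P : ℕ} (hN : 1 ≤ N) (hβ : 1 ≤ β)
    (hP : N ≤ β ∨ 2 * P + β * (β - 1) ≤ 2 * ((β + 2) * N))
    (h : ∀ p ≤ P, Van K 4 (N + 1) p (2 * N + β + 1)) : B4 K N β P := by
  have key : ∀ j, ∀ p ≤ P, Van K 4 (N + 1) p (2 * N + β + 1 + j) := by
    intro j
    induction j with
    | zero => exact h
    | succ j ih =>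
      refine slope4 (r := 2 * N + β + 1 + j) (by omega)
        (fun p hp => three' hN hβ ?_ (by omega)) ?_
      · omega
      · intro p hp
        exact ih p (by omega)
  intro p hp r hr
  obtain ⟨j, rfl⟩ := Nat.exists_eq_add_of_le hr
  exact key j p hp

/-- The base `N ≤ β + 2`. -/
theorem base4 {N β P : ℕ} (hN : 1 ≤ N) (hβ : 1 ≤ β) (hNβ : N ≤ β + 2)
    (hP : 2 * P + β * (β - 1) ≤ 2 * ((β + 2) * N)) : B4 K N β P := by
  intro p hp r hr
  obtain ⟨c, rfl⟩ : ∃ c, β = c + 1 := ⟨β - 1, by omega⟩
  rw [Nat.add_sub_cancel] at hP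
  obtain ⟨j, hj⟩ : ∃ j, c + 1 + 2 = N + j := ⟨c + 3 - N, by omega⟩
  rcases Nat.lt_or_ge r (3 * N) with hr3 | hr3
  · obtain rfl : j = 0 := by omega
    obtain rfl : N = c + 3 := by omega
    have e : r = 3 * (c + 3) - 1 := by omega
    rw [e]
    refine lb4 hN ?_
    nlinarith
  · obtain ⟨k, rfl⟩ := Nat.exists_eq_add_of_le hr3
    refine top4 hN k p ?_
    have hk : j ≤ k + 1 := by omega
    rcases Nat.eq_zero_or_pos j with hj0 | hj0
    · subst hj0
      obtain rfl : N = c + 3 := by omega
      nlinarith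
    · obtain ⟨i, rfl⟩ : ∃ i, j = i + 1 := ⟨j - 1, by omega⟩
      have e : c + 2 = N + i := by omega
      have h2 : c * c + 3 * c + 2 + i * (i + 1) ≤ N * N + 2 * N * i + i * i + i * i + i := by
        nlinarith
      nlinarith

end char

section ord

variable {K : Type} [Field K] [LinearOrder K] [IsStrictOrderedRing K]

/-- The gluing hypothesis. -/
theorem hgr_num [CharZero K] {N β P κ l D t : ℕ} (hβN : β ≤ N) (hl : β ≤ l) (ht : 3 ≤ t)
    (hP : 4 * P < N * N + β * N + 5 * N + 6 * β + 8) (hD : D + κ + l + t ≤ 2 * P + 1) :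
    HGr K 4 N κ l (N + β) D := by
  refine hgr4 K N κ l (N + β) D ?_
  rcases Nat.lt_or_ge (N + β + 1) κ with h1 | h1
  · right
    have e : (N + β + 2) * N = N * N + β * N + 2 * N := by ring
    rcases Nat.lt_or_ge (N + (N + β) + 1) κ with h2 | h2
    · right
      have h3 : (2 * N + β + 2) * (N + 3) ≤ κ * (N + 3) := Nat.mul_le_mul_right _ (by omega)
      have e3 : (2 * N + β + 2) * (N + 3) = 2 * (N * N) + β * N + 8 * N + 3 * β + 6 := by ring
      have e4 : κ * (N + 3) = κ * N + 3 * κ := by ring
      have h5 : β * N ≤ N * N := Nat.mul_le_mul_right _ hβN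
      omega
    · left
      refine ⟨by omega, h2, ?_⟩
      omega
  · exact Or.inl h1

/-- The climb: the range `p ≤ P` for `(M + 1, β)` from smaller cases. -/
theorem climb4 {M β P : ℕ} (hM : 1 ≤ M) (hβ : 1 ≤ β) (hβM : β ≤ M + 1)
    (hcap : 2 * P + β * (β - 1) ≤ 2 * ((β + 2) * (M + 1)))
    (hB : ∀ s, s + 3 + β ≤ P → B4 K M β s)
    (hq : ∀ s, s + M + 5 ≤ P → B4 K (M + 1) (β - 1) s)
    (hP : 4 * P < (M + 1) * (M + 1) + β * (M + 1) + 5 * (M + 1) + 6 * β + 8) :
    B4 K (M + 1) β P := by
  have hcz : CharZero K := IsStrictOrderedRing.toCharZero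
  obtain ⟨c, rfl⟩ : ∃ c, β = c + 1 := ⟨β - 1, by omega⟩
  have hcap' := hcap
  rw [Nat.add_sub_cancel] at hcap'
  have hB1 : ∀ i s, s + 2 + (c + 1) ≤ P + i →
      Van K 4 (M + 1) s (2 * M + 1 + (c + 1) + i + 1) := by
    intro i
    induction i with
    | zero =>
      intro s hs
      refine slope4 (P := s) (by omega) ?_ ?_ s le_rfl
      · intro s' hs'
        have h := VB.three (K := K) (N := M) (β := c + 1 + 1) (p := s') hM (by
          rcases Nat.lt_or_ge (c + 1 + 1) M with h1 | h1
          · right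
            rw [Nat.add_sub_cancel]
            obtain ⟨m, rfl⟩ := Nat.exists_eq_add_of_lt h1
            nlinarith
          · exact Or.inl h1)
        have e : 2 * M + (c + 1 + 1) + 1 = 2 * M + 1 + (c + 1) + 0 + 1 := by ring
        rwa [e] at h
      · intro s' hs'
        exact hB s' (by omega) s' le_rfl _ (by omega)
    | succ i ih =>
      intro s hs
      refine slope4 (P := s) (r := 2 * M + 1 + (c + 1) + (i + 1)) (by omega) ?_ ?_ s le_rfl
      · intro s' hs'
        have h := VB.three (K := K) (N := M) (β := c + 1 + i + 1 + 1) (p := s') hM (by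
          rcases Nat.lt_or_ge (c + 1 + i + 1 + 1) M with h1 | h1
          · right
            rw [Nat.add_sub_cancel]
            obtain ⟨m, rfl⟩ := Nat.exists_eq_add_of_lt h1
            nlinarith
          · exact Or.inl h1)
        have e : 2 * M + (c + 1 + i + 1 + 1) + 1 = 2 * M + 1 + (c + 1) + (i + 1) + 1 := by ring
        rwa [e] at h
      · intro s' hs'
        exact ih s' (by omega)
  have hC : ∀ s r', s + 4 ≤ P → 3 * M + 2 + (c + 1) ≤ r' → Van K 4 (M + 1) s r' := by
    intro s r' hs hr'
    obtain ⟨k, rfl⟩ : ∃ k, r' = 3 * M + k := ⟨r' - 3 * M, by omega⟩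
    refine top4 hM k s ?_
    have hk : c + 3 ≤ k := by omega
    obtain ⟨m, hm⟩ : ∃ m, M = c + m := ⟨M - c, by omega⟩
    subst hm
    nlinarith [Nat.zero_le (m * m)]
  have key : ∀ p, p ≤ P → ∀ r, 2 * M + 3 + (c + 1) ≤ r → Van K 4 (M + 2) p r := by
    intro p
    induction p using Nat.strong_induction_on with
    | _ p ih =>
      intro hp r hr
      have h3 : Van K 3 (M + 2) p r := by
        refine three' (N := M + 1) (β := c + 1) (by omega) (by omega) (Or.inr ?_) (by omega)
        omega
      rcases Nat.lt_or_ge (2 * M + 3 + (c + 1)) r with hr1 | hr1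
      · obtain ⟨r0, rfl⟩ : ∃ r0, r = r0 + 1 := ⟨r - 1, by omega⟩
        exact step1 (by omega) h3 (fun h4 => ih (p - 4) (by omega) (by omega) _ hr)
          (fun h3 => ih (p - 3) (by omega) (by omega) _ (by omega))
      · obtain rfl : r = 2 * M + 3 + (c + 1) := by omega
        refine stepv K 3 M (c + 1) p (p - (M + 5)) le_rfl (by omega) h3 ?_ ?_ ?_ ?_ ?_ (by omega) ?_
        · intro p' hp' r' hr'
          exact ih p' hp' (by omega) r' hr'
        · intro s hs
          exact hB s (by omega) s le_rfl _ (by omega)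
        · intro s i _ hs
          have h := hB1 i s (by omega)
          have e : 2 * M + 1 + (c + 1) + i + 1 = 2 * M + 2 + (c + 1) + i := by ring
          rwa [e] at h
        · intro s r' hs hr'
          exact hC s r' (by omega) hr'
        · intro p' hp' r' hr'
          rcases Nat.eq_zero_or_pos p' with h0 | h0
          · subst h0
            exact low K 4 (M + 2) 0 r' (by omega) (by omega)
          · exact hq p' (by omega) p' le_rfl r' (by omega)
        · intro t κ l D ht hl hD
          have h := hgr_num (K := K) (N := M + 1) (β := c + 1) (P := p) (κ := κ) (l := l) (D := D)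
            (t := t) (by omega) hl ht (by omega) hD
          exact h
  intro p hp r hr
  exact key p hp r (by omega)

/-- The condition on the loss `ε`. -/
def Lo (N β ε : ℕ) : Prop :=
  ∀ N' : ℕ, β + 3 ≤ N' → N' ≤ N →
    ((N' : ℤ) - β) * (2 * β + 3 - N') < 4 * ((ε : ℤ) + N - N') + β + 8

theorem Lo.num {N β ε P : ℕ} (hβ : 1 ≤ β) (hN : β + 3 ≤ N) (h : Lo N β ε)
    (hcap : 2 * (P + ε) + β * (β - 1) ≤ 2 * ((β + 2) * N)) :
    4 * P < N * N + β * N + 5 * N + 6 * β + 8 := by
  obtain ⟨c, rfl⟩ : ∃ c, β = c + 1 := ⟨β - 1, by omega⟩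
  rw [Nat.add_sub_cancel] at hcap
  have h1 := h N hN le_rfl
  push_cast at h1
  zify at hcap ⊢
  nlinarith

/-- The lower end of the weight `2` in four variables, with loss `ε`. -/
theorem main4 : ∀ β, 1 ≤ β → ∀ N, 1 ≤ N → ∀ P ε,
    2 * (P + ε) + β * (β - 1) ≤ 2 * ((β + 2) * N) → Lo N β ε → B4 K N β P := by
  have hcz : CharZero K := IsStrictOrderedRing.toCharZero
  intro β hβ
  induction β, hβ using Nat.le_induction with
  | base =>
    intro N hN P ε hcap _
    refine mono4 hN le_rfl (Or.inr (by omega)) ?_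
    intro p hp
    exact vb1 K N hN 4 p (by omega)
  | succ β hβ ihβ =>
    intro N hN
    induction N, hN using Nat.le_induction with
    | base =>
      intro P ε hcap _
      exact base4 le_rfl (by omega) (by omega) (by omega)
    | succ M hM ihM =>
      intro P ε hcap hLo
      rcases Nat.lt_or_ge (β + 1 + 2) (M + 1) with hNβ | hNβ
      · have hcap' := hcap
        rw [Nat.add_sub_cancel] at hcap'
        refine climb4 hM (by omega) (by omega) (by omega) ?_ ?_
          (hLo.num (by omega) (by omega) hcap)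
        · intro s hs
          refine ihM s (ε + 1) ?_ ?_
          · rw [Nat.add_sub_cancel]
            nlinarith
          · intro N' h1 h2
            have h3 := hLo N' h1 (by omega)
            push_cast at h3 ⊢
            linarith
        · intro s hs
          rw [Nat.add_sub_cancel]
          refine ihβ (M + 1) (by omega) s (ε + (β + 4)) ?_ ?_
          · obtain ⟨c, rfl⟩ : ∃ c, β = c + 1 := ⟨β - 1, by omega⟩
            rw [Nat.add_sub_cancel]
            nlinarith
          · intro N' h1 h2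
            have h2' : (N' : ℤ) ≤ M + 1 := by exact_mod_cast h2
            rcases Nat.eq_or_lt_of_le h1 with h4 | h4
            · subst h4
              push_cast at h2' ⊢
              have : (0 : ℤ) ≤ ε := Int.natCast_nonneg ε
              nlinarith
            · have h3 := hLo N' (by omega) h2
              have h4' : (β : ℤ) + 4 ≤ N' := by exact_mod_cast h4
              push_cast at h3 ⊢
              nlinarith
      · exact base4 (by omega) (by omega) hNβ (by omega)

end ord

end V4

end Pool.Agent.VOP
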