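import Pool.Agent.VOP.OP2
import Pool.Agent.VPT.FCW

/-!
# MP_deb8da_ag: the main theorem, starting with Lemma T at `l = l₀`, gluing with at most `v - 1`
rows
-/

set_option autoImplicit false

namespace Pool.Agent.VOP

open MvPolynomial Pool.Agent.VSY

/-- `PP(t, j)`: Lemma T for `l = l₀`, the leading term argument for `l₀ < l ≤ j`. -/
theorem ppw (K : Type) [Field K] [LinearOrder K] [IsStrictOrderedRing K] (v M β t j l₀ : ℕ)
    (hv : 1 ≤ v) (hj : 1 ≤ j) (hl₀ : l₀ ≤ j)
    (hbase : MVB K v (M + 1) (M + 2) (j - l₀) l₀ (M + β))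
    (hAlt : ∀ l, l₀ < l → l ≤ j → Van K v (M + 1) (j - l) (2 * M + 1 + β) ∧
        (∀ s ≤ j - l, LIFT K v (M + 1) (M + 2) s l (2 * M + 1 + β)) ∧
        LIFT K v (M + 1) (M + 2) (j - l) (l - 1) (2 * M + 1 + β) ∧
        (∀ k g, 1 ≤ k → k ≤ t + 1 → g + l ≤ j →
          HGr K v (M + 1) (k + g + l) l (M + 1 + β) (t + 1 - k + (j - l - g) + (j - l))))
    (hPP : PP K v M β (t + 1) (j - 1)) : PP K v M β t j := by
  have hcz : CharZero K := IsStrictOrderedRing.toCharZero
  have key : ∀ l, l₀ ≤ l → l ≤ j → CL K v M β t j l := by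
    intro l hl
    induction l, hl using Nat.le_induction with
    | base =>
      intro _
      have h := lemt K v M β t (j - l₀) l₀ hbase
      rwa [Nat.sub_add_cancel hl₀] at h
    | succ l hll ihl =>
      intro hl
      have hC0 : CL K v M β t j l := ihl (by omega)
      have hAl := hAlt (l + 1) (by omega) hl
      obtain ⟨s, rfl⟩ : ∃ s, j = s + (l + 1) := ⟨j - (l + 1), by omega⟩
      rw [show s + (l + 1) - (l + 1) = s by omega] at hAl
      obtain ⟨hV, hLi, hLi1, hG⟩ := hAl
      have hPVs : PV K v (M + 1) s (M + β) := by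
        refine t_VPVM K v (M + 1) s (M + β) (by omega) ?_
        rwa [show M + β + (M + 1) = 2 * M + 1 + β by omega]
      have hC1 : CL K v M β t (s + (l + 1)) (l + 1 - 1) := by simpa using hC0
      have hA : ALP K v M β t s (l + 1) := alpm K v M β t s (l + 1) hPVs (Or.inr hC1)
      have hT : THREE K v M β t s (l + 1) :=
        thrm K v M β t s (l + 1) (by omega) hPVs (Or.inr hC1) hPP
      have hTwo : TWO K v M β t s (l + 1) := twom K v M β t s (l + 1) hPVs hC1
      have hL : ∀ s' ≤ s, LIFT K v (M + 1) (M + 2) s' (l + 1) (2 * M + 1 + β) := hLi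
      have hL1 : LIFT K v (M + 1) (M + 2) s (l + 1 - 1) (2 * M + 1 + β) := hLi1
      have hCH : ∀ n i, t + s + 1 ≤ i + n → CH K v M β t s (l + 1) i := by
        intro n
        induction n with
        | zero =>
          intro i hi
          exact CHB_thm DG_thm div K v M β t s (l + 1) i hA (by omega)
        | succ n ih =>
          intro i hi
          have h1 := ih (i + 1) (by omega)
          refine hf K v M β t s (l + 1) i hTwo hA (hL s le_rfl) hL1 h1 ?_
          intro a b hab ha hb
          have hN : N0P K v M β t s (l + 1) (a + b) := by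
            rw [hab]
            exact N0G_thm DG_thm sbt K v M β t s (l + 1) i (n0c K v M β t s (l + 1) i hTwo hA
              (hL s le_rfl) hL1 h1)
          refine fcaw DG_thm sym n2 n3 est (ORT_thm WB_thm) K v M β t s (l + 1) a b hv ha hb hN
            hL hA hT ?_
          have h2 := hG (t - a + 1) (s - b) (by omega) (by omega) (by omega)
          rwa [show t + 1 - (t - a + 1) + (s - (s - b)) + s = s + a + b by omega] at h2
      exact CLCH_thm DG_thm sbt K v M β t s (l + 1) (hCH (t + s + 1) 0 (by omega))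
  exact PPC_thm DG_thm sym gd0 K v M β t j hv (key j hl₀ le_rfl)

end Pool.Agent.VOP
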