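import Pool.Agent.VPT.NUM4

/-!
# MP_deb8da_ag: all ends of the non-vanishing ranges for `n ≤ 3` and all `b`
-/

set_option autoImplicit false

namespace Pool.Agent.VOP.V4F

open Pool.Agent.VSY Pool.Agent.VOP

/-- The loss at the lower end of the weight `2` on `P³`. -/
def ell (b d : ℤ) : ℤ :=
  if d ≤ b + 4 then 0
  else if 2 * d ≤ 3 * b + 12 then max 0 (((d - b - 2) * (2 * b + 6 - d) - b - 5) / 4)
  else max 0 ((b ^ 2 + 28 * b + 76) / 16 - d)

theorem ell_nonneg (b d : ℤ) : 0 ≤ ell b d := by
  unfold ell
  split_ifs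
  · exact le_rfl
  · exact le_max_left _ _
  · exact le_max_left _ _

theorem lo_of_ell {b N ε : ℕ} (h : ell b (N + 1) ≤ ε) : V4.Lo N (b + 1) ε := by
  intro N' h1 h2
  have h1' : (b : ℤ) + 4 ≤ N' := by exact_mod_cast h1
  have h2' : (N' : ℤ) ≤ N := by exact_mod_cast h2
  push_cast
  unfold ell at h
  rw [if_neg (by omega)] at h
  split_ifs at h with h3
  · have h4 := (le_max_right 0 _).trans h
    have h5 : ((N : ℤ) + 1 - b - 2) * (2 * b + 6 - (N + 1)) - b - 5 < (ε + 1) * 4 :=
      Int.lt_mul_of_ediv_lt (by norm_num) (by omega)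
    nlinarith
  · have h4 := (le_max_right 0 _).trans h
    have h5 : (b : ℤ) ^ 2 + 28 * b + 76 < (ε + (N + 1) + 1) * 16 :=
      Int.lt_mul_of_ediv_lt (by norm_num) (by omega)
    nlinarith [sq_nonneg (2 * (N' : ℤ) - 3 * b - 10)]

/-- The lower end of the weight `2` in four variables. -/
theorem van4 (K : Type) [Field K] [CharZero K] {b d p : ℕ} (hd : b + 3 ≤ d)
    (hp : (p : ℤ) + ell b d < Lend 2 b d) : Van K 4 d p (2 * d + b) := by
  apply BC_thm
  obtain ⟨N, rfl⟩ : ∃ N, d = N + 1 := ⟨d - 1, by omega⟩
  have e : 2 * (N + 1) + b = 2 * N + (b + 1) + 1 := by ring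
  rw [e]
  obtain ⟨ε, hε⟩ := Int.eq_ofNat_of_zero_le (ell_nonneg b (N + 1))
  have hε' : ell b ((N + 1 : ℕ) : ℤ) = ε := by
    rw [← hε]
    push_cast
    rfl
  rw [hε'] at hp
  refine V4.main4 (K := ℚ) (b + 1) (by omega) N (by omega) p ε ?_ (lo_of_ell hε.le) p le_rfl _
    le_rfl
  rw [Nat.add_sub_cancel]
  have hl := CH.lend_eq (b := b) (d := N + 1) (by omega)
  push_cast at hl
  have h8 : (2 : ℤ) * (p + ε) + (b + 1) * b ≤ 2 * ((b + 1 + 2) * N) := by nlinarith
  exact_mod_cast h8

/-- The lower end of the weight `n`. -/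
theorem top_lower (K : Type) [Field K] [CharZero K] {n b d p : ℕ} (hd : b + n + 1 ≤ d)
    (h : p + (d - b - 1).choose n + n + 1 ≤ (d + n).choose n) : KExact K n d p (n * d + b) := by
  obtain ⟨s, rfl⟩ := Nat.exists_eq_add_of_le hd
  refine V3F.of_van K (by omega) (tg K n (b + n + 1 + s) p _ (by omega) ?_
    (Or.inr ⟨s, ?_, ?_⟩))
  · have e : b + n + 1 + s - 1 = b + n + s := by omega
    rw [e]
    nlinarith
  · have e : b + n + 1 + s - 1 = b + n + s := by omega
    rw [e]
    ring
  · have e : b + n + 1 + s - b - 1 = s + n := by omega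
    rw [e] at h
    omega

/-- The upper end of the weight `0`. -/
theorem zero_upper (K : Type) [Field K] [CharZero K] {n b d p : ℕ} (hd : b + 1 ≤ d)
    (h : (b + n).choose n ≤ p) : KExact K n d p b :=
  DK.KExact_dual K n d p b (by omega) (fun h1 h2 => by
    refine V3F.of_van K (by omega) (tg K n d _ _ (by omega) ?_ (Or.inr ⟨b, ?_, ?_⟩))
    · omega
    · omega
    · have := V3F.le_choose (n := n) (d := d) (by omega)
      omega)

/-- The upper end of the weight `n - 1`. -/
theorem pre_upper (K : Type) [Field K] [CharZero K] {n b d p : ℕ}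
    (h : (d + n + 1).choose (n + 1) + b ≤ p + d) (hd : 1 ≤ d) :
    KExact K (n + 1) d p (n * d + b) :=
  DK.KExact_dual K (n + 1) d p (n * d + b) (by omega) (fun h1 h2 => by
    refine V3F.of_van K (by omega) (low K _ d _ _ (by omega) ?_)
    have h3 := V3F.le_choose (n := n + 1) (d := d) (by omega)
    have h4 : d + (n + 1) = d + n + 1 := rfl
    rw [h4] at h1 h3 ⊢
    obtain ⟨c, rfl⟩ : ∃ c, d = c + 1 := ⟨d - 1, by omega⟩
    rw [Nat.add_sub_cancel] at h2 ⊢
    have e1 : (n + 1 + 1) * c = n * (c + 1) + 2 * c - n := by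
      have : (n + 1 + 1) * c + n = n * (c + 1) + 2 * c := by ring
      omega
    omega)

/-- The lower end of the weight `1`. -/
theorem one_lower (K : Type) [Field K] [CharZero K] {n b d p : ℕ} (hd : 1 ≤ d) (h : p ≤ b) :
    KExact K n d p (d + b) :=
  V3F.of_van K hd (low K _ d _ _ (by omega) (by omega))

/-- The lower end of the weight `2` for threefolds. -/
theorem quad_lower (K : Type) [Field K] [CharZero K] {b d p : ℕ} (hd : b + 3 ≤ d)
    (hp : (p : ℤ) + ell b d < Lend 2 b d) : KExact K 3 d p (2 * d + b) :=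
  V3F.of_van K (by omega) (van4 K hd hp)

theorem choose_two' (m : ℕ) : (2 : ℤ) * ((m + 1).choose 2 : ℤ) = (m + 1) * m := by
  have h : ∀ n : ℕ, (n + 1).choose 2 * 2 = (n + 1) * n := by
    intro n
    induction n with
    | zero => decide
    | succ n ih =>
      rw [show n + 1 + 1 = (n + 1) + 1 by omega, Nat.choose_succ_succ' (n + 1) 1]
      rw [Nat.choose_one_right, add_mul, ih]
      ring
  have h1 := h m
  zify at h1
  linarith

/-- The upper end of the weight `1` for threefolds. -/
theorem lin_upper (K : Type) [Field K] [CharZero K] {b d p : ℕ} (hd : b + 2 ≤ d)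
    (h : ((d + 3).choose 3 : ℤ) - ((d + 2).choose 2 : ℤ) + ((b + 3).choose 2 : ℤ) - 2 +
      ell (d - 4 - b) d < p) : KExact K 3 d p (d + b) :=
  DK.KExact_dual K 3 d p (d + b) (by omega) (fun h1 h2 => by
    have h0 := ell_nonneg (d - 4 - b) d
    have hc3 := V3F.le_choose (n := 3) (d := d) (by omega)
    obtain ⟨p', hp'⟩ : ∃ p', p' = (d + 3).choose 3 - (3 + 1) - p := ⟨_, rfl⟩
    rw [← hp']
    have h3 : (p' : ℤ) + p + 4 = (d + 3).choose 3 := by
      have : p' + p + 4 = (d + 3).choose 3 := by omega
      exact_mod_cast this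
    have hd2 := choose_two' (d + 1)
    have hb2 := choose_two' (b + 2)
    rcases Nat.lt_or_ge d (b + 4) with hk | hk
    · have h6 : (p' : ℤ) < ((d + 2).choose 2 : ℤ) - ((b + 3).choose 2 : ℤ) - 2 := by linarith
      have hk' : d = b + 2 ∨ d = b + 3 := by omega
      rcases hk' with rfl | rfl
      · refine V3F.of_van K (by omega) (low K _ _ _ _ (by omega) ?_)
        have h4 : (p' : ℤ) < b + 1 := by
          push_cast at hd2 hb2
          have e1 : b + 2 + 1 + 1 = b + 2 + 2 := rfl
          have e2 : b + 2 + 1 = b + 3 := rfl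
          rw [e1] at hd2
          rw [e2] at hb2
          nlinarith
        have h5 : p' < b + 1 := by exact_mod_cast h4
        omega
      · have h4 : (p' : ℤ) < 2 * b + 5 := by
          push_cast at hd2 hb2
          have e1 : b + 3 + 1 + 1 = b + 3 + 2 := rfl
          have e2 : b + 2 + 1 = b + 3 := rfl
          rw [e1] at hd2
          rw [e2] at hb2
          nlinarith
        have h5 : p' < 2 * b + 5 := by exact_mod_cast h4
        have h7 := van_one K 4 (b + 3) p' (by omega)
        have e : (3 + 1) * (b + 3 - 1) - (b + 3 + b) = 2 * (b + 3) - 1 := by omega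
        rw [e]
        exact V3F.of_van K (by omega) h7
    · obtain ⟨c, rfl⟩ : ∃ c, d = b + 4 + c := ⟨d - b - 4, by omega⟩
      have e : (3 + 1) * (b + 4 + c - 1) - (b + 4 + c + b) = 2 * (b + 4 + c) + c := by omega
      rw [e]
      refine quad_lower K (by omega) ?_
      have e2 : (((b + 4 + c : ℕ) : ℤ) - 4 - b) = c := by
        push_cast
        ring
      rw [e2] at h
      have e3 : b + 4 + c - c - 1 = b + 3 := by omega
      unfold Lend
      rw [e3]
      push_cast at h ⊢
      linarith)

/-- All ends for `n ≤ 3`. -/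
theorem ends (K : Type) [Field K] [CharZero K] {n q b d p : ℕ} (hn : n ≤ 3) (hq : q ≤ n)
    (hd : b + q + 1 ≤ d)
    (h : (p : ℤ) < ((d + q).choose q : ℤ) - ((d - b - 1).choose q : ℤ) - q -
        (if n = 3 ∧ q = 2 then ell b d else 0) ∨
      ((d + n).choose n : ℤ) - ((d + n - q).choose (n - q) : ℤ) + ((b + n).choose (b + q) : ℤ) -
        q - 1 + (if n = 3 ∧ q = 1 then ell (d - 4 - b) d else 0) < p) :
    KExact K n d p (q * d + b) := by
  rcases Nat.eq_zero_or_pos q with rfl | hq0
  · -- weight 0
    rw [zero_mul, zero_add]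
    refine zero_upper K (by omega) ?_
    rw [if_neg (by omega), if_neg (by omega)] at h
    simp only [Nat.sub_zero, Nat.add_zero, Nat.choose_zero_right] at h
    have e : (b + n).choose b = (b + n).choose n := Nat.choose_symm_add
    rw [e] at h
    omega
  rcases Nat.lt_or_ge q n with hqn | hqn
  · have hn' : n = 2 ∨ n = 3 := by omega
    rcases hn' with rfl | rfl
    · -- n = 2, q = 1
      obtain rfl : q = 1 := by omega
      rw [if_neg (by omega), if_neg (by omega)] at h
      have e1 : d + 2 - 1 = d + 1 := by omega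
      have e2 : (2 - 1 : ℕ) = 1 := rfl
      have e3 : (b + 2).choose (b + 1) = b + 2 := Nat.choose_succ_self_right (b + 1)
      rw [Nat.choose_one_right, Nat.choose_one_right, e1, e2, Nat.choose_one_right, e3] at h
      rcases h with h | h
      · rw [one_mul]
        exact one_lower K (by omega) (by omega)
      · refine pre_upper K (n := 1) ?_ (by omega)
        have e4 : (d + 1 + 1).choose (1 + 1) = (d + 2).choose 2 := rfl
        rw [e4]
        push_cast at h
        omega
    · -- n = 3
      have hq' : q = 1 ∨ q = 2 := by omega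
      rcases hq' with rfl | rfl
      · rw [if_neg (by omega), if_pos ⟨rfl, rfl⟩] at h
        have e1 : d + 3 - 1 = d + 2 := by omega
        have e2 : (3 - 1 : ℕ) = 2 := rfl
        have e3 : (b + 3).choose (b + 1) = (b + 3).choose 2 := by
          have : b + 3 = b + 1 + 2 := rfl
          rw [this]
          exact Nat.choose_symm_add
        rw [Nat.choose_one_right, Nat.choose_one_right, e1, e2, e3] at h
        rw [one_mul]
        rcases h with h | h
        · exact one_lower K (by omega) (by omega)
        · refine lin_upper K (by omega) ?_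
          push_cast at h
          linarith
      · rw [if_pos ⟨rfl, rfl⟩, if_neg (by omega)] at h
        have e1 : d + 3 - 2 = d + 1 := by omega
        have e2 : (3 - 2 : ℕ) = 1 := rfl
        have e3 : (b + 3).choose (b + 2) = b + 3 := Nat.choose_succ_self_right (b + 2)
        rw [e1, e2, e3, Nat.choose_one_right] at h
        rcases h with h | h
        · refine quad_lower K (by omega) ?_
          unfold Lend
          push_cast at h ⊢
          linarith
        · refine pre_upper K (n := 2) ?_ (by omega)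
          have e4 : (d + 2 + 1).choose (2 + 1) = (d + 3).choose 3 := rfl
          rw [e4]
          push_cast at h
          omega
  · -- q = n
    obtain rfl : q = n := by omega
    rw [if_neg (by omega), if_neg (by omega)] at h
    rcases h with h | h
    · refine top_lower K hd ?_
      omega
    · refine V3F.beyond K (by omega) ?_
      rw [Nat.sub_self, Nat.choose_zero_right, Nat.choose_self] at h
      omega

end Pool.Agent.VOP.V4F
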